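import Pool.Agent.Helper87_UT.Defs
import Pool.Agent.Helper76_Bisect.Equiv
import Pool.Agent.Common_CookLevin.CookLevin

/-!
# UT: exact statements of the modules

Plan: `/team-store/PLAN_UT.md`.
-/

set_option autoImplicit false

namespace Pool.Agent.UT

open Finset Turing Computability
open Pool.Agent.Helper32_HCK (InNP languageProblem)
open Pool.Agent.Helper76_Bisect
open Pool.Agent.Common_CookLevin (CNF encodeCNF satProblem)

/-- computable in polynomial time -/
abbrev PT {α β A B : Type} (ea : α → List A) (eb : β → List B) (f : α → β) : Prop :=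
  Nonempty (TM2ComputableInPolyTime ea eb f)

/-- encoding of a pair -/
def encPair {α β A B : Type} (ea : α → List A) (eb : β → List B) (z : α × β) : List (A ⊕ B) :=
  (ea z.1).map Sum.inl ++ (eb z.2).map Sum.inr

/-! ### The simulation (direction: tester ⇒ NP ⊆ BPP) -/

/-- The data for the simulation of a tester: `a`, `b`, the number `q` of coins, samples and moves,
`2 ^ s` units, `t` bits for each toggle, the adjacency matrix of the units. -/
structure Inst where
  a : ℕ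
  b : ℕ
  q : ℕ
  s : ℕ
  t : ℕ
  A : List Bool

/-- letters -/
inductive ILetter
  | a | b | q | s | t
  | bit (r : Bool)

deriving instance DecidableEq, Fintype for ILetter
deriving instance DecidableEq, Fintype for ViewLetter
deriving instance DecidableEq, Fintype for MoveLetter

/-- encoding -/
def Inst.enc (I : Inst) : List ILetter :=
  List.replicate I.a .a ++ List.replicate I.b .b ++ List.replicate I.q .q ++
    List.replicate I.s .s ++ List.replicate I.t .t ++ I.A.map .bit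

/-- instances with a matrix of the right size -/
abbrev VInst : Type := {I : Inst // I.A.length = 4 ^ I.s}

/-- the number with given binary digits, lowest digit first -/
def val : List Bool → ℕ
  | [] => 0
  | b :: l => b.toNat + 2 * val l

/-- the unit of the `i`-th sample -/
def Inst.unit (I : Inst) (r : List Bool) (i : ℕ) : ℕ := val ((r.drop (I.q + i * I.s)).take I.s)

/-- is the pair of the samples `i`, `j` toggled? -/
def Inst.noise (I : Inst) (r : List Bool) (i j : ℕ) : Bool :=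
  ((r.drop (I.q + I.q * I.s + (min i j * I.q + max i j) * I.t)).take I.t).all id

/-- the simulated answer -/
def Inst.adj (I : Inst) (r : List Bool) (i j : ℕ) : Bool :=
  decide (i < I.q ∧ j < I.q ∧ i ≠ j) &&
    xor (I.A.getD (I.unit r i * 2 ^ I.s + I.unit r j) false) (I.noise r i j)

/-- the simulated run -/
def Inst.run (next : View → Move) (I : Inst) (r : List Bool) : Bool :=
  play next I.a I.b (r.take I.q) (I.adj r) I.q []

/-- M1 (SIM): the simulation runs in polynomial time. -/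
def SimStmt : Prop := ∀ next : View → Move, PT View.enc Move.enc next →
  PT (encPair (fun I : VInst => I.1.enc) (id : List Bool → List Bool)) encodeBool
    (fun z => z.1.1.run next z.2)

/-! ### The reduction -/

/-- the tokens of a formula: `none` starts a clause -/
def toks (F : CNF) : List (Option (ℕ × Bool)) := F.flatMap fun C => none :: C.map some

/-- bound for the variables -/
def vN (F : CNF) : ℕ := (encodeCNF F).length

/-- number of gate variables -/
def kN (F : CNF) : ℕ := 2 * vN F + 2 * (toks F).length + 1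

/-- number of gates -/
def lN (F : CNF) : ℕ := vN F + 2 * (toks F).length + 1

/-- The gates. Gate variables: `2 v` = the variable `v`, `2 v + 1` = its negation (`v < vN`);
`2 vN + 2 i` = one of the literals of the clause up to the token `i` is true,
`2 vN + 2 i + 1` = none of them is true. -/
def gateAt (F : CNF) (g : ℕ) : Gate ℕ 0 :=
  if g < vN F then .nand (2 * g + 1) (2 * g) (2 * g)
  else
    match (toks F)[(g - vN F) / 2]? with
    | none => if (g - vN F) / 2 = 0 then .con 0 true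
        else .con (2 * vN F + 2 * ((g - vN F) / 2 - 1) + 1) false
    | some none => if (g - vN F) % 2 = 0 ∨ (g - vN F) / 2 = 0 then
          .con (2 * vN F + 2 * ((g - vN F) / 2) + 1) true
        else .con (2 * vN F + 2 * ((g - vN F) / 2 - 1) + 1) false
    | some (some (v, s)) => if (g - vN F) % 2 = 0 then
          .nand (2 * vN F + 2 * ((g - vN F) / 2)) (2 * vN F + 2 * ((g - vN F) / 2 - 1) + 1)
            (if s then 2 * v + 1 else 2 * v)
        else .nand (2 * vN F + 2 * ((g - vN F) / 2) + 1) (2 * vN F + 2 * ((g - vN F) / 2))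
          (2 * vN F + 2 * ((g - vN F) / 2))

/-- GAT: correctness of the gates. -/
def GatStmt : Prop := ∀ F : CNF, (∀ g < lN F, (gateAt F g).all (fun v => v < kN F)) ∧
  ((∃ v : ℕ → Bool, ∀ C ∈ F, ∃ l ∈ C, v l.1 = l.2) ↔
    ∃ α : ℕ → Bool, ∀ g < lN F, (gateAt F g).holds (fun i => i.elim0) α)

/-- number of vertices of the cut graph: pairs (`0` or variable `+ 1`, `0` or `5 g + j + 1`) -/
def uN (F : CNF) : ℕ := (kN F + 1) * (5 * lN F + 1)

/-- first components of the vertices of a NAND gate -/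
def slotN (z a b p : ℕ) : ℕ := if p = 0 then a + 1 else if p = 1 then b + 1 else if p = 2 then 0
  else z + 1

/-- the edges `(u1, u2) → (v1, v2)` of the gates -/
def gateEdge (γ : Gate ℕ 0) (g u1 u2 v1 v2 : ℕ) : Bool :=
  match γ with
  | .xin _ _ => false
  | .con x b => decide (u1 = x + 1 ∧ u2 = (if b then 5 * g + 1 else 0) ∧ v1 = 0 ∧ v2 = 5 * g + 2)
  | .nand z a b => decide (u2 ≠ 0 ∧ (u2 - 1) / 5 = g ∧ (u2 - 1) % 5 < (v2 - 1) % 5 ∧
      (u2 - 1) % 5 ≤ 2 ∧ u1 = slotN z a b ((u2 - 1) % 5) ∧ v1 = slotN z a b ((v2 - 1) % 5))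

/-- the directed edges of the cut graph; the vertex `(u1, u2)` has the number
`u1 * (5 * lN + 1) + u2` -/
def edgeN (F : CNF) (u v : ℕ) : Bool :=
  let w := 5 * lN F + 1
  decide (v % w ≠ 0) && (decide (u / w = v / w ∧ u % w = 0) ||
    gateEdge (gateAt F ((v % w - 1) / 5)) ((v % w - 1) / 5) (u / w) (u % w) (v / w) (v % w))

/-- adjacency of the vertices `< 2 * uN` of the bisection graph -/
def bisN (F : CNF) (i j : ℕ) : Bool :=
  decide (i ≠ j) && !(decide (i < uN F ∧ j < uN F) && (edgeN F i j || edgeN F j i))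

/-- `deficit` -/
def defN : Gate ℕ 0 → ℕ
  | .nand _ _ _ => 3
  | _ => 0

/-- `esize` -/
def esN : Gate ℕ 0 → ℕ
  | .nand _ _ _ => 9
  | _ => 1

/-- the bound for the cut -/
def kcN (F : CNF) : ℕ := uN F * uN F + ∑ g ∈ range (lN F), defN (gateAt F g) -
  ((kN F + 1) * (5 * lN F) + ∑ g ∈ range (lN F), esN (gateAt F g))

/-- BIS: the bisection graph. -/
def BisStmt : Prop := ∀ F : CNF, ∃ H : SimpleGraph (Fin (2 * uN F)),
  (∀ i j : Fin (2 * uN F), H.Adj i j ↔ bisN F i j = true) ∧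
  ((∃ A : Finset (Fin (2 * uN F)), A.card = uN F ∧ cutEdges H A ≤ kcN F) ↔
    ∃ α : ℕ → Bool, ∀ g < lN F, (gateAt F g).holds (fun i => i.elim0) α)

/-- the exponent of the blow-up factor `2 ^ muN` -/
def muN (lam : ℕ) (F : CNF) : ℕ := Nat.clog 2 (16 * lam * (2 * uN F))

/-- the number of units is `2 ^ sN` -/
def sN (lam : ℕ) (F : CNF) : ℕ := Nat.clog 2 (lam * (2 * uN F) * 2 ^ muN lam F)

/-- half the number of the additional units -/
def LN (lam : ℕ) (F : CNF) : ℕ := (2 ^ sN lam F - 2 * uN F * 2 ^ muN lam F) / 2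

/-- the degree in the additional part; `fl n = ⌊ρ n⌋` -/
def DN (fl : ℕ → ℕ) (lam : ℕ) (F : CNF) : ℕ :=
  (fl (4 ^ sN lam F) - 4 ^ muN lam F * kcN F - 4 ^ muN lam F / 2) / LN lam F

/-- adjacency of the units: `2 L` additional units, then the blow-up of the bisection graph -/
def unitN (F : CNF) (L M D u v : ℕ) : Bool :=
  if u < 2 * L then
    decide (v < 2 * L) && (decide (u / L = v / L) ||
      (decide (u / L < v / L ∧ (v % L + L - u % L) % L < D) ||
        decide (v / L < u / L ∧ (u % L + L - v % L) % L < D)))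
  else decide (2 * L ≤ v) && (decide ((u - 2 * L) / M = (v - 2 * L) / M) ||
    bisN F ((u - 2 * L) / M) ((v - 2 * L) / M))

/-- the adjacency matrix of the units, with ones on the diagonal -/
def matN (fl : ℕ → ℕ) (lam : ℕ) (F : CNF) : List Bool :=
  (List.range (2 ^ sN lam F)).flatMap fun u => (List.range (2 ^ sN lam F)).map fun v =>
    decide (u = v) || unitN F (LN lam F) (2 ^ muN lam F) (DN fl lam F) u v

/-- `σ = 1 / 2 ^ tN` -/
def tN (lam : ℕ) (F : CNF) : ℕ := 2 * sN lam F + 2 - 2 * muN lam F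

theorem matN_length (fl : ℕ → ℕ) (lam : ℕ) (F : CNF) :
    (matN fl lam F).length = 4 ^ sN lam F := by
  unfold matN
  have : (4 : ℕ) ^ sN lam F = 2 ^ sN lam F * 2 ^ sN lam F := by
    rw [← mul_pow]
    norm_num
  rw [this]
  simp [List.length_flatMap]

/-- the data for the simulation -/
noncomputable def datN (fl : ℕ → ℕ) (lam c3 : ℕ) (qq : Polynomial ℕ) (F : CNF) : VInst :=
  ⟨⟨c3 * 2 ^ tN lam F, 2 ^ tN lam F, qq.eval (c3 * 2 ^ tN lam F + 2 ^ tN lam F), sN lam F,
    tN lam F, matN fl lam F⟩, matN_length fl lam F⟩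

/-- SIZ: the output has polynomial length. -/
def SizStmt : Prop := ∀ (α β A B : Type) (ea : α → List A) (eb : β → List B) (f : α → β),
  PT ea eb f → ∃ p : Polynomial ℕ, ∀ x, (eb (f x)).length ≤ p.eval (ea x).length

/-- CPS: composition. -/
def CpsStmt : Prop := ∀ (α β γ A B C : Type) (ea : α → List A) (eb : β → List B)
  (ec : γ → List C) (f : α → β) (g : β → γ), PT ea eb f → PT eb ec g → PT ea ec (g ∘ f)

/-- MP1: a function of the first component. -/
def Mp1Stmt : Prop := ∀ (α β A B D : Type) [Fintype B] [Fintype D] (ea : α → List A) (eb : β → List B)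
  (f : α → β), PT ea eb f →
  PT (encPair ea (id : List D → List D)) (encPair eb (id : List D → List D))
    (fun z => (f z.1, z.2))

/-- M4 (DAT): the data can be computed in polynomial time. -/
def DatStmt : Prop := ∀ fl : ℕ → ℕ, PT unary unary fl → (∀ n, fl n ≤ n) → ∀ lam c3 : ℕ, 1 ≤ lam →
  ∀ qq : Polynomial ℕ, PT encodeCNF (fun I : VInst => I.1.enc) (datN fl lam c3 qq)

/-- PAR: the parameters of the gadget. -/
def ParStmt : Prop := ∀ (ρ : ℝ) (lam : ℕ), 0 < ρ → ρ < 1 / 8 → 7 ≤ lam * (1 - 8 * ρ) →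
  1 ≤ ρ * lam → ∀ F : CNF, 1 ≤ sN lam F ∧ 1 ≤ tN lam F ∧
  Params ρ (1 / 2 ^ tN lam F) (2 * uN F) (uN F) (kcN F) lam (LN lam F) (2 ^ muN lam F)
    (DN (fun n => ⌊ρ * n⌋₊) lam F) (2 ^ sN lam F)

/-- UNI: the numbering of the units. -/
def UniStmt : Prop := ∀ (F : CNF) (L M D n : ℕ) (H : SimpleGraph (Fin (2 * uN F))), 0 < L →
  0 < M → n = 2 * L + 2 * uN F * M → (∀ i j : Fin (2 * uN F), H.Adj i j ↔ bisN F i j = true) →
  ∃ e : Fin n ≃ GV L (2 * uN F) M, ∀ u v : Fin n, u ≠ v →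
    ((baseGraph L M D e H).Adj u v ↔ unitN F L M D u v = true)

/-- RED: correctness of the reduction. -/
def RedStmt : Prop := ∀ (ρ : ℝ) (lam : ℕ), 0 < ρ → ρ < 1 / 8 → 7 ≤ lam * (1 - 8 * ρ) →
  1 ≤ ρ * lam → ∀ F : CNF, ∃ Γ : SimpleGraph (Fin (2 ^ sN lam F)),
  (∀ u v : Fin (2 ^ sN lam F), (matN (fun n => ⌊ρ * n⌋₊) lam F).getD
    (u.val * 2 ^ sN lam F + v.val) false = true ↔ u = v ∨ Γ.Adj u v) ∧
  1 ≤ sN lam F ∧ 1 ≤ tN lam F ∧
  ((∃ v : ℕ → Bool, ∀ C ∈ F, ∃ l ∈ C, v l.1 = l.2) →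
    ∃ A : Finset (Fin (2 ^ sN lam F)), 2 * A.card = 2 ^ sN lam F ∧
      (cutEdges Γ A : ℝ) ≤ (ρ - 1 / 2 ^ tN lam F) * (2 ^ sN lam F) ^ 2) ∧
  (¬ (∃ v : ℕ → Bool, ∀ C ∈ F, ∃ l ∈ C, v l.1 = l.2) →
    ∀ A : Finset (Fin (2 ^ sN lam F)), 2 * A.card = 2 ^ sN lam F →
      (ρ + 1 / 2 ^ tN lam F) * (2 ^ sN lam F) ^ 2 ≤ (cutEdges Γ A : ℝ))

/-! ### Probability -/

/-- The graph on `q` samples with the units `τ`, before the perturbation. -/
def typeGraph {K q : ℕ} (Γ : SimpleGraph (Fin K)) (τ : Fin q → Fin K) : SimpleGraph (Fin q) where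
  Adj i j := i ≠ j ∧ (τ i = τ j ∨ Γ.Adj (τ i) (τ j))
  symm := ⟨by
    rintro i j ⟨h1, h2⟩
    exact ⟨h1.symm, h2.elim (fun h => .inl h.symm) fun h => .inr h.symm⟩⟩
  loopless := ⟨by rintro i ⟨h, _⟩; exact h rfl⟩

/-- The blow-up of `Γ`: `ν` vertices for each unit. -/
def blow {K : ℕ} (Γ : SimpleGraph (Fin K)) (ν : ℕ) : SimpleGraph (Fin (K * ν)) :=
  typeGraph Γ Fin.divNat

/-- the average of a function over the random graph with the units `Γ` -/
noncomputable def limAvg {K q : ℕ} (Γ : SimpleGraph (Fin K)) (σ : ℝ)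
    (f : SimpleGraph (Fin q) → ℝ) : ℝ := by
  classical exact (∑ τ : Fin q → Fin K, ∑ T : SimpleGraph (Fin q),
    toggleProb σ T * f (symmDiff (typeGraph Γ τ) T)) / (K : ℝ) ^ q

/-- the average of a function over the samples from a perturbation of `G` -/
noncomputable def smpAvg {n q : ℕ} (G : SimpleGraph (Fin n)) (σ : ℝ)
    (f : SimpleGraph (Fin q) → ℝ) : ℝ := by
  classical exact (∑ T : SimpleGraph (Fin n), toggleProb σ T *
    ∑ x : Fin q → Fin n, f ((symmDiff G T).comap x)) / (n : ℝ) ^ q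

/-- the probability over the coins that the tester accepts the graph `H` on the samples -/
noncomputable def accProb (next : View → Move) (q a b : ℕ) (H : SimpleGraph (Fin q)) : ℝ := by
  classical exact ((univ.filter fun c : Fin q → Bool =>
    play next a b (List.ofFn c) (sampleAdj H id) q [] = true).card : ℝ) / 2 ^ q

/-- CMP: samples at different vertices see a random graph. -/
def CmpStmt : Prop := ∀ (n q : ℕ) (x : Fin q → Fin n), Function.Injective x →
  ∀ (σ : ℝ) (f : SimpleGraph (Fin q) → ℝ), by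
    classical exact ∑ T : SimpleGraph (Fin n), toggleProb σ T * f (T.comap x) =
      ∑ T : SimpleGraph (Fin q), toggleProb σ T * f T

/-- INJ: few samples have a repetition. -/
def InjStmt : Prop := ∀ (n q : ℕ), by
  classical exact (n : ℝ) * ((univ.filter fun x : Fin q → Fin n =>
    ¬ Function.Injective x).card : ℝ) ≤ (q : ℝ) ^ 2 * (n : ℝ) ^ q

/-- LIM: the limit. -/
def LimStmt : Prop := ∀ (K q ν : ℕ) (Γ : SimpleGraph (Fin K)) (σ : ℝ)
  (f : SimpleGraph (Fin q) → ℝ), 0 < K → 0 < ν → 0 ≤ σ → σ ≤ 1 → (∀ H, 0 ≤ f H ∧ f H ≤ 1) →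
  |smpAvg (blow Γ ν) σ f - limAvg Γ σ f| ≤ (q : ℝ) ^ 2 / (K * ν : ℕ)

/-- BLW: cuts of a blow-up. -/
def BlwStmt : Prop := ∀ (K ν : ℕ) (Γ : SimpleGraph (Fin K)) (r : ℝ), 0 < K → Even K → 0 < ν →
  ((∃ A : Finset (Fin K), 2 * A.card = K ∧ (cutEdges Γ A : ℝ) ≤ r * (K : ℝ) ^ 2) →
    ∃ S : Finset (Fin (K * ν)), 2 * S.card = K * ν ∧
      (cutEdges (blow Γ ν) S : ℝ) ≤ r * ((K * ν : ℕ) : ℝ) ^ 2) ∧
  ((∀ A : Finset (Fin K), 2 * A.card = K → r * (K : ℝ) ^ 2 ≤ (cutEdges Γ A : ℝ)) →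
    ∀ S : Finset (Fin (K * ν)), 2 * S.card = K * ν →
      r * ((K * ν : ℕ) : ℝ) ^ 2 ≤ (cutEdges (blow Γ ν) S : ℝ))

/-- RST: the restriction of a uniform function is uniform. -/
def RstStmt : Prop := ∀ (ι κ X : Type) [Fintype ι] [Fintype κ] [Fintype X] [DecidableEq ι]
  [DecidableEq κ] (φ : ι → κ) (P : (ι → X) → Prop) [DecidablePred P], Function.Injective φ →
  (univ.filter fun c : κ → X => P (fun i => c (φ i))).card * Fintype.card X ^ Fintype.card ι =
    (univ.filter P).card * Fintype.card X ^ Fintype.card κ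

/-- VAL: binary digits. -/
def ValStmt : Prop := ∀ s : ℕ, (∀ c : Fin s → Bool, val (List.ofFn c) < 2 ^ s) ∧
  ∀ m < 2 ^ s, ∃! c : Fin s → Bool, val (List.ofFn c) = m

/-- NOI: toggles made of `t` bits. -/
def NoiStmt : Prop := ∀ (q t : ℕ) (f : SimpleGraph (Fin q) → ℝ)
  (e : (Fin q → Fin q → Fin t → Bool) → SimpleGraph (Fin q)),
  (∀ c i j, i < j → ((e c).Adj i j ↔ ∀ m, c i j m = true)) → by
    classical exact ∑ c : Fin q → Fin q → Fin t → Bool, f (e c) =
      Fintype.card (Fin q → Fin q → Fin t → Bool) *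
        ∑ T : SimpleGraph (Fin q), toggleProb (1 / 2 ^ t) T * f T

/-- COI: the simulation has the limit distribution. -/
def CoiStmt : Prop := ∀ (next : View → Move) (I : Inst) (Γ : SimpleGraph (Fin (2 ^ I.s))) (p : ℕ),
  (∀ u v : Fin (2 ^ I.s), I.A.getD (u.val * 2 ^ I.s + v.val) false = true ↔ u = v ∨ Γ.Adj u v) →
  I.q + I.q * I.s + I.q * I.q * I.t ≤ p → by
    classical exact ((univ.filter fun r : Fin p → Bool =>
      I.run next (List.ofFn r) = true).card : ℝ) =
      2 ^ p * limAvg Γ (1 / 2 ^ I.t) (accProb next I.q I.a I.b)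

/-- FWD: what a tester does on the units. -/
def FwdStmt : Prop := ∀ (ρ σ : ℝ) (next : View → Move) (q a b K : ℕ) (Γ : SimpleGraph (Fin K)),
  0 < K → Even K → 0 < σ → σ ≤ 1 / 2 → Tests ρ σ next q a b →
  ((∃ A : Finset (Fin K), 2 * A.card = K ∧ (cutEdges Γ A : ℝ) ≤ (ρ - σ) * (K : ℝ) ^ 2) →
    2 / 3 ≤ limAvg Γ σ (accProb next q a b)) ∧
  ((∀ A : Finset (Fin K), 2 * A.card = K → (ρ + σ) * (K : ℝ) ^ 2 ≤ (cutEdges Γ A : ℝ)) →
    limAvg Γ σ (accProb next q a b) ≤ 1 / 3)

/-- FIN1: a weak tester gives `NP ⊆ BPP`. -/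
def Fin1Stmt : Prop := ∀ ρ : ℝ, 0 < ρ → ρ < 1 / 8 → UnaryComputable ρ → HasWeakTester ρ →
  NPSubsetBPP

/-! ### The tester (direction: NP ⊆ BPP ⇒ tester) -/

/-- exponent of the number of blocks -/
def tκ (a : ℕ) : ℕ := Nat.clog 2 (5 * (16 * a) ^ 2)

/-- number of blocks -/
def tk (a : ℕ) : ℕ := 2 ^ tκ a

/-- sample size per block -/
def tt (a : ℕ) : ℕ := (500 * (16 * a) ^ 2) ^ 2

/-- number of test pairs -/
def tm (a : ℕ) : ℕ := 16 * (16 * a) ^ 4 * (tk a * tt a + 8)

/-- number of samples: block `j` has the samples `j * tt + s`, the test pair `r` the samples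
`tk * tt + 2 * r` and `tk * tt + 2 * r + 1` -/
def tQ (a : ℕ) : ℕ := tk a * tt a + 2 * tm a

/-- the answer to the query `(i, j)` -/
def tAdj (a : ℕ) (ans : List Bool) (i j : ℕ) : Bool := ans.getD (i * tQ a + j) false

/-- the label of the vertex `u < 2 * tm` of the test pairs -/
def tLab (a : ℕ) (lab : List Bool) (u : ℕ) : ℕ := val ((lab.drop (u * tκ a)).take (tκ a))

/-- the side of the vertex `u < 2 * tm` of the test pairs, for the guess `π` -/
def tSide (a : ℕ) (lab ans π : List Bool) (u : ℕ) : Bool :=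
  let j := tLab a lab u
  let v := tk a * tt a + u
  decide (((List.range (tt a)).countP fun s => tAdj a ans (j * tt a + s) v &&
        !π.getD (j * tt a + s) false) +
      8 * a * ((List.range (tt a)).countP fun s => π.getD (j * tt a + s) false) <
    ((List.range (tt a)).countP fun s => tAdj a ans (j * tt a + s) v &&
        π.getD (j * tt a + s) false) + 4 * a * tt a)

/-- is the guess `π` accepted? `fl n = ⌊ρ n⌋` -/
def tAcc (fl : ℕ → ℕ) (a : ℕ) (lab ans π : List Bool) : Bool :=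
  let m := tm a
  let X := (List.range m).countP fun r =>
    tAdj a ans (tk a * tt a + 2 * r) (tk a * tt a + 2 * r + 1) &&
      (tSide a lab ans π (2 * r) && !tSide a lab ans π (2 * r + 1))
  let Y := (List.range m).countP fun r => tSide a lab ans π (2 * r)
  decide (64 * a * m * X + 64 * a ^ 2 * ((2 * Y - m) + (m - 2 * Y)) ^ 2 ≤
    16 * a * (fl (4 * m ^ 2) + 1) + 12 * m ^ 2)

/-- the word for the language -/
def tEnc (a : ℕ) (lab ans : List Bool) : List Bool :=
  (List.range a).flatMap (fun _ => [false, false, false]) ++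
    lab.flatMap (fun b => [true, false, b]) ++ ans.flatMap (fun b => [true, true, b])

/-- decoding -/
def tDec : List Bool → ℕ × List Bool × List Bool
  | false :: _ :: _ :: l => ((tDec l).1 + 1, (tDec l).2.1, (tDec l).2.2)
  | true :: false :: b :: l => ((tDec l).1, b :: (tDec l).2.1, (tDec l).2.2)
  | true :: true :: b :: l => ((tDec l).1, (tDec l).2.1, b :: (tDec l).2.2)
  | _ => (0, [], [])

/-- the language of the accepted words -/
def tLang (fl : ℕ → ℕ) : Set (List Bool) :=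
  {w | ∃ π : List Bool, tAcc fl (tDec w).1 (tDec w).2.1 (tDec w).2.2 π = true}

/-- M3 (NPL): the language is in NP. -/
def NplStmt : Prop := ∀ fl : ℕ → ℕ, PT unary unary fl → (∀ n, fl n ≤ n) →
  InNP (languageProblem (tLang fl))

/-- majority -/
def maj3 (x y z : Bool) : Bool := (x && y) || (x && z) || (y && z)

/-- the tester: query all pairs, then call the machine `V` three times -/
noncomputable def tNext (V : List Bool × List Bool → Bool) (p : Polynomial ℕ) (v : View) : Move :=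
  if v.answers.length < tQ v.a * tQ v.a then
    .query (v.answers.length / tQ v.a) (v.answers.length % tQ v.a)
  else
    let w := tEnc v.a (v.coins.take (2 * tm v.a * tκ v.a)) v.answers
    let f : ℕ → Bool := fun i => V (w, (v.coins.drop (2 * tm v.a * tκ v.a +
      i * p.eval w.length)).take (p.eval w.length))
    .output (maj3 (f 0) (f 1) (f 2))

/-- M2 (TNX): the next move is computed in polynomial time. -/
def TnxStmt : Prop := ∀ (V : List Bool × List Bool → Bool) (p : Polynomial ℕ),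
  PT (fun z : List Bool × List Bool => z.1.map Sum.inl ++ z.2.map Sum.inr) encodeBool V →
  PT View.enc Move.enc (tNext V p)

/-- DEC: decoding. -/
def DecStmt : Prop := ∀ (a : ℕ) (lab ans : List Bool), tDec (tEnc a lab ans) = (a, lab, ans)

/-- PLY: the run of the tester. -/
def PlyStmt : Prop := ∀ (V : List Bool × List Bool → Bool) (p : Polynomial ℕ) (a b n : ℕ)
  (coins : List Bool) (adj : ℕ → ℕ → Bool), 1 ≤ a → tQ a * tQ a < n →
  play (tNext V p) a b coins adj n [] =
    let w := tEnc a (coins.take (2 * tm a * tκ a))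
      ((List.range (tQ a * tQ a)).map fun c => adj (c / tQ a) (c % tQ a))
    let f : ℕ → Bool := fun i => V (w, (coins.drop (2 * tm a * tκ a +
      i * p.eval w.length)).take (p.eval w.length))
    maj3 (f 0) (f 1) (f 2)

/-- POL: the polynomial of the tester. -/
def PolStmt : Prop := ∀ p : Polynomial ℕ, ∃ q : Polynomial ℕ, ∀ a b : ℕ, 1 ≤ a →
  ∀ lab ans : List Bool, lab.length = 2 * tm a * tκ a → ans.length = tQ a * tQ a →
  tQ a * tQ a + 1 ≤ q.eval (a + b) ∧ tQ a ≤ q.eval (a + b) ∧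
  2 * tm a * tκ a + 3 * p.eval (tEnc a lab ans).length ≤ q.eval (a + b)

/-- the samples of the blocks -/
def blockS {V : Type} {a : ℕ} (x : Fin (tQ a) → V) (j : Fin (tk a)) (s : Fin (tt a)) : V :=
  x ⟨j.val * tt a + s.val, by
    have h1 := j.isLt
    have h2 := s.isLt
    have h3 : (j.val + 1) * tt a ≤ tk a * tt a := Nat.mul_le_mul_right _ h1
    unfold tQ
    rw [add_mul] at h3
    omega⟩

/-- the vertex `2 r + b` of the test pairs -/
def testS {V : Type} {a : ℕ} (x : Fin (tQ a) → V) (u : Fin (2 * tm a)) : V :=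
  x ⟨tk a * tt a + u.val, by
    have h1 := u.isLt
    unfold tQ
    omega⟩

/-- the test pairs -/
def pairS {V : Type} {a : ℕ} (x : Fin (tQ a) → V) (r : Fin (tm a)) : V × V :=
  (testS x ⟨2 * r.val, by have := r.isLt; omega⟩, testS x ⟨2 * r.val + 1, by have := r.isLt; omega⟩)

/-- the answers -/
noncomputable def ansS {n a : ℕ} (G : SimpleGraph (Fin n)) (x : Fin (tQ a) → Fin n) : List Bool :=
  (List.range (tQ a * tQ a)).map fun c => sampleAdj G x (c / tQ a) (c % tQ a)

/-- the threshold -/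
noncomputable def thrN (fl : ℕ → ℕ) (a : ℕ) : ℝ :=
  ((fl (4 * tm a ^ 2) : ℝ) + 1) / (4 * (tm a : ℝ) ^ 2)

/-- TAC: acceptance in terms of helper76's test. -/
def TacStmt : Prop := ∀ (fl : ℕ → ℕ) (a n : ℕ) (G : SimpleGraph (Fin n)) (x : Fin (tQ a) → Fin n)
  (labs : Fin (2 * tm a * tκ a) → Bool) (lab : Fin n → Fin (tk a)), 1 ≤ a →
  (∀ u : Fin (2 * tm a), (lab (testS x u)).val = tLab a (List.ofFn labs) u) →
  (tEnc a (List.ofFn labs) (ansS G x) ∈ tLang fl ↔
    accept G (4 * a) lab (thrN fl a + 3 * (1 / (16 * a))) (blockS x) (pairS x))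

/-- CMT: completeness and soundness with small error. -/
def CmtStmt : Prop := ∀ (a n : ℕ) (G : SimpleGraph (Fin n)) (lab : Fin n → Fin (tk a)) (r : ℝ),
  1 ≤ a → 0 < n →
  ((∀ i, ((univ.filter (fun v => (lab v).val = i)).card : ℝ) / n ≤ 2 / tk a) →
    ∀ y : Fin n → Bool, obj G (4 * a) y ≤ r → by
      classical exact ((univ.filter fun z : (Fin (tk a) → Fin (tt a) → Fin n) ×
        (Fin (tm a) → Fin n × Fin n) =>
        ¬ accept G (4 * a) lab (r + 3 * (1 / (16 * a))) z.1 z.2).card : ℝ) ≤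
        Fintype.card ((Fin (tk a) → Fin (tt a) → Fin n) × (Fin (tm a) → Fin n × Fin n)) *
          (1 / 20)) ∧
  ((∀ y : Fin n → Bool, r + 5 * (1 / (16 * a)) ≤ obj G (4 * a) y) → by
      classical exact ((univ.filter fun z : (Fin (tk a) → Fin (tt a) → Fin n) ×
        (Fin (tm a) → Fin n × Fin n) =>
        accept G (4 * a) lab (r + 3 * (1 / (16 * a))) z.1 z.2).card : ℝ) ≤
        Fintype.card ((Fin (tk a) → Fin (tt a) → Fin n) × (Fin (tm a) → Fin n × Fin n)) *
          (1 / 20))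

/-- BAD: most labellings have small blocks. -/
def BadStmt : Prop := ∀ (k n : ℕ), 0 < k → 0 < n → by
  classical exact (n : ℝ) * ((univ.filter fun lab : Fin n → Fin k =>
    ¬ ∀ i, ((univ.filter (fun v => (lab v).val = i)).card : ℝ) / n ≤ 2 / k).card : ℝ) ≤
    (k : ℝ) ^ 3 * (k : ℝ) ^ n

/-- RLB: random labels of the samples against random labellings. -/
def RlbStmt : Prop := ∀ (Ω : Type) [Fintype Ω] (k N n : ℕ)
  (P : (Fin n → Fin k) → (Fin N → Fin n) → Ω → Prop)
  (R : (Fin N → Fin k) → (Fin N → Fin n) → Ω → Prop) (c : ℝ), 0 < k → 0 < n →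
  (∀ lab z ω, Function.Injective z → R (fun i => lab (z i)) z ω → P lab z ω) → by
  classical exact
    ((univ.filter fun w : (Fin n → Fin k) × (Fin N → Fin n) × Ω =>
      P w.1 w.2.1 w.2.2).card : ℝ) ≤ c * ((k : ℝ) ^ n * ((n : ℝ) ^ N * Fintype.card Ω)) →
    ((univ.filter fun w : (Fin N → Fin k) × (Fin N → Fin n) × Ω =>
      R w.1 w.2.1 w.2.2).card : ℝ) ≤
      (c + (N : ℝ) ^ 2 / n) * ((k : ℝ) ^ N * ((n : ℝ) ^ N * Fintype.card Ω))

/-- ERR: the error of the test with random labels. -/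
def ErrStmt : Prop := ∀ (ρ : ℝ) (a : ℕ) (η : ℝ), 0 < ρ → ρ < 1 → 1 ≤ a → 0 < η → ∃ n₀ : ℕ,
  ∀ n : ℕ, n₀ ≤ n → Even n → ∀ G : SimpleGraph (Fin n), by
  classical exact
  (RhoBisection ρ G → ((univ.filter fun z : (Fin (2 * tm a * tκ a) → Bool) ×
      (Fin (tQ a) → Fin n) => tEnc a (List.ofFn z.1) (ansS G z.2) ∉
        tLang (fun n => ⌊ρ * n⌋₊)).card : ℝ) ≤
    (1 / 20 + η) * (2 ^ (2 * tm a * tκ a) * (n : ℝ) ^ tQ a)) ∧
  ((∀ S : Finset (Fin n), 2 * S.card = n →
      (ρ + 8 * (1 / (16 * a))) * (n : ℝ) ^ 2 ≤ (cutEdges G S : ℝ)) →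
    ((univ.filter fun z : (Fin (2 * tm a * tκ a) → Bool) × (Fin (tQ a) → Fin n) =>
      tEnc a (List.ofFn z.1) (ansS G z.2) ∈ tLang (fun n => ⌊ρ * n⌋₊)).card : ℝ) ≤
    (1 / 20 + η) * (2 ^ (2 * tm a * tκ a) * (n : ℝ) ^ tQ a))

/-- MAJ: three runs of a machine with error `1/3`. -/
def MajStmt : Prop := ∀ (X : Type) [Fintype X] [DecidableEq X] (P : X → Bool),
  ((univ.filter fun r : X => P r = false).card : ℝ) ≤ 1 / 3 * Fintype.card X →
  ((univ.filter fun r : Fin 3 → X => maj3 (P (r 0)) (P (r 1)) (P (r 2)) = false).card : ℝ) ≤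
    7 / 27 * (Fintype.card X : ℝ) ^ 3

/-- TOT: the error of the tester on a fixed graph. -/
def TotStmt : Prop := ∀ (V : List Bool × List Bool → Bool) (p q : Polynomial ℕ) (fl : ℕ → ℕ)
  (a b n : ℕ) (G : SimpleGraph (Fin n)) (c : ℝ) (ans : Bool), 1 ≤ a → 0 < n → by
  classical exact (∀ x : List Bool, ((univ.filter fun r : Fin (p.eval x.length) → Bool =>
      ¬ (V (x, List.ofFn r) = true ↔ x ∈ tLang fl)).card : ℝ) ≤ 1 / 3 * 2 ^ p.eval x.length) →
  (tQ a * tQ a + 1 ≤ q.eval (a + b) ∧ tQ a ≤ q.eval (a + b) ∧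
    ∀ lab as : List Bool, lab.length = 2 * tm a * tκ a → as.length = tQ a * tQ a →
      2 * tm a * tκ a + 3 * p.eval (tEnc a lab as).length ≤ q.eval (a + b)) →
  ((univ.filter fun z : (Fin (2 * tm a * tκ a) → Bool) × (Fin (tQ a) → Fin n) =>
    ¬ (tEnc a (List.ofFn z.1) (ansS G z.2) ∈ tLang fl ↔ ans = true)).card : ℝ) ≤
    c * (2 ^ (2 * tm a * tκ a) * (n : ℝ) ^ tQ a) →
  ((univ.filter fun z : (Fin (q.eval (a + b)) → Bool) × (Fin (q.eval (a + b)) → Fin n) =>
    ¬ (play (tNext V p) a b (List.ofFn z.1) (sampleAdj G z.2) (q.eval (a + b)) [] = true ↔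
      ans = true)).card : ℝ) ≤
    (c + 7 / 27) * Fintype.card ((Fin (q.eval (a + b)) → Bool) × (Fin (q.eval (a + b)) → Fin n))

/-- CND: from the error on fixed graphs to the smoothed error. -/
def CndStmt : Prop := ∀ (ρ ε σ : ℝ) (a : ℕ) (err : (n : ℕ) → SimpleGraph (Fin n) → ℝ) (e : ℝ),
  0 < ρ → ρ < 1 / 8 → 0 < σ → σ ≤ 1 / 2 → 0 < ε → ε < σ * (1 / 4 - 2 * ρ) → 1 / ε ≤ a →
  (∀ n G, 0 ≤ err n G ∧ err n G ≤ 1) → e < 1 / 3 →
  (∃ n₀ : ℕ, ∀ n ≥ n₀, Even n → ∀ G : SimpleGraph (Fin n),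
    (RhoBisection ρ G → err n G ≤ e) ∧
    ((∀ S : Finset (Fin n), 2 * S.card = n →
      (ρ + 8 * (1 / (16 * a))) * (n : ℝ) ^ 2 ≤ (cutEdges G S : ℝ)) → err n G ≤ e)) →
  ∀ δ : ℝ, 0 < δ → ∃ n₀ : ℕ, ∀ n ≥ n₀, Even n → ∀ G : SimpleGraph (Fin n), by
    classical exact
      (∑ T : SimpleGraph (Fin n) with (RhoBisection ρ (symmDiff G T) ↔ RhoBisection ρ G),
        toggleProb σ T * err n (symmDiff G T)) /
      (∑ T : SimpleGraph (Fin n) with (RhoBisection ρ (symmDiff G T) ↔ RhoBisection ρ G),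
        toggleProb σ T) < 1 / 3 + δ

/-- FIN2: `NP ⊆ BPP` gives a tester. -/
def Fin2Stmt : Prop := ∀ ρ : ℝ, 0 < ρ → ρ < 1 / 8 → UnaryComputable ρ → NPSubsetBPP →
  HasUniformTester ρ

/-- RAT: rational numbers are computable. -/
def RatStmt : Prop := ∀ q : ℚ, 0 ≤ q → UnaryComputable q

end Pool.Agent.UT
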