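import Pool.Agent.Helper2_XG.Lib
import Pool.Agent.Helper87_UT.Stmts

/-!
# Number-valued functions in the calculus `FP`
-/

set_option autoImplicit false

namespace Pool.Agent.UT.Num

open Function Pool.Agent.H2XG
open Pool.Agent.Helper53_CookLevin (scan scan_append size size_cons length_le_size size_rename)

variable {C : Type} [Inhabited C] {m : ℕ}

/-- number-valued functions -/
def FPN (m : ℕ) (e : (Fin m → List C) → ℕ) : Prop :=
  FP m (fun ρ => List.replicate (e ρ) (default : C))

theorem FPN.congr {e e' : (Fin m → List C) → ℕ} (h : FPN m e) (h' : ∀ ρ, e' ρ = e ρ) :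
    FPN m e' := by
  have : e' = e := funext h'
  rw [this]
  exact h

theorem FPN.len {A : (Fin m → List C) → List C} (hA : FP m A) : FPN m (fun ρ => (A ρ).length) :=
  hA.unary default

theorem FPN.const (n : ℕ) : FPN (C := C) m (fun _ => n) :=
  FP.const _

/-- the loop variable -/
theorem FPN.v0 : FPN (C := C) (m + 1) (fun σ => (σ 0).length) :=
  FPN.len (FP.var 0)

theorem FPN.v1 : FPN (C := C) (m + 2) (fun σ => (σ 1).length) :=
  FPN.len (FP.var 1)

theorem FPN.weak {e : (Fin m → List C) → ℕ} (h : FPN m e) :
    FPN (m + 1) (fun σ => e (fun i => σ i.succ)) :=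
  FP.weak h

theorem FPB.weak {b : (Fin m → List C) → Bool} (h : FPB m b) :
    FPB (m + 1) (fun σ => b (fun i => σ i.succ)) :=
  FP.weak h

theorem FPN.add {e e' : (Fin m → List C) → ℕ} (h : FPN m e) (h' : FPN m e') :
    FPN m (fun ρ => e ρ + e' ρ) :=
  (FP.append h h').congr fun ρ => by rw [List.replicate_add]

theorem FPN.mul {e e' : (Fin m → List C) → ℕ} (h : FPN m e) (h' : FPN m e') :
    FPN m (fun ρ => e ρ * e' ρ) :=
  (FPN.len (FP.mulW h h')).congr fun ρ => by
    rw [length_flatMap_const, List.length_replicate, List.length_replicate]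

theorem FPN.sub {e e' : (Fin m → List C) → ℕ} (h : FPN m e) (h' : FPN m e') :
    FPN m (fun ρ => e ρ - e' ρ) :=
  (FPN.len (FP.dropLen h h')).congr fun ρ => by
    rw [List.length_drop, List.length_replicate, List.length_replicate]

theorem FPN.pow {e : (Fin m → List C) → ℕ} (h : FPN m e) : ∀ n : ℕ, FPN m (fun ρ => e ρ ^ n)
  | 0 => (FPN.const 1).congr fun ρ => pow_zero _
  | n + 1 => ((FPN.pow h n).mul h).congr fun ρ => pow_succ _ _

theorem FPN.poly {e : (Fin m → List C) → ℕ} (h : FPN m e) (p : Polynomial ℕ) :
    FPN m (fun ρ => p.eval (e ρ)) := by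
  obtain ⟨W, hW, hW'⟩ := FP.poly h p
  refine (FPN.len hW).congr fun ρ => ?_
  rw [hW', List.length_replicate]

theorem FPN.ite {b : (Fin m → List C) → Bool} (hb : FPB m b) {e e' : (Fin m → List C) → ℕ}
    (h : FPN m e) (h' : FPN m e') : FPN m (fun ρ => if b ρ then e ρ else e' ρ) :=
  (FP.ite hb h h').congr fun ρ => by
    beta_reduce
    by_cases hb : b ρ = true
    · rw [if_pos hb, if_pos hb]
    · rw [if_neg hb, if_neg hb]

theorem FPB.ltN {e e' : (Fin m → List C) → ℕ} (h : FPN m e) (h' : FPN m e') :
    FPB m (fun ρ => decide (e ρ < e' ρ)) :=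
  (FPB.lt h h').congr fun ρ => by rw [List.length_replicate, List.length_replicate]

theorem FPB.leN {e e' : (Fin m → List C) → ℕ} (h : FPN m e) (h' : FPN m e') :
    FPB m (fun ρ => decide (e ρ ≤ e' ρ)) :=
  (FPB.le h h').congr fun ρ => by rw [List.length_replicate, List.length_replicate]

theorem FPB.eqN {e e' : (Fin m → List C) → ℕ} (h : FPN m e) (h' : FPN m e') :
    FPB m (fun ρ => decide (e ρ = e' ρ)) :=
  (FPB.lenEq h h').congr fun ρ => by rw [List.length_replicate, List.length_replicate]

theorem FPB.ite {b : (Fin m → List C) → Bool} (hb : FPB m b) {e e' : (Fin m → List C) → Bool}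
    (h : FPB m e) (h' : FPB m e') : FPB m (fun ρ => if b ρ then e ρ else e' ρ) :=
  ((hb.and h).or (hb.not.and h')).congr fun ρ => by
    rcases b ρ <;> simp

theorem FP.rep {e : (Fin m → List C) → ℕ} (h : FPN m e) (c : C) :
    FP m (fun ρ => List.replicate (e ρ) c) :=
  (FP.unary h c).congr fun ρ => by rw [List.length_replicate]

theorem FP.takeNum {A : (Fin m → List C) → List C} (hA : FP m A) {e : (Fin m → List C) → ℕ}
    (h : FPN m e) : FP m (fun ρ => (A ρ).take (e ρ)) :=
  (FP.takeLen hA h).congr fun ρ => by rw [List.length_replicate]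

theorem FP.dropNum {A : (Fin m → List C) → List C} (hA : FP m A) {e : (Fin m → List C) → ℕ}
    (h : FPN m e) : FP m (fun ρ => (A ρ).drop (e ρ)) :=
  (FP.dropLen hA h).congr fun ρ => by rw [List.length_replicate]

theorem FPB.getNum [Fintype C] {A : (Fin m → List C) → List C} (hA : FP m A)
    {e : (Fin m → List C) → ℕ} (h : FPN m e) (P : Option C → Bool) :
    FPB m (fun ρ => P (A ρ)[e ρ]?) :=
  (FPB.get hA h P).congr fun ρ => by rw [List.length_replicate]

theorem scan_range {C : Type} (d : C) (F : ℕ → List C) : ∀ (n k : ℕ),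
    scan (fun p _ => F p.length) (List.replicate k d) (List.replicate n d) =
      (List.range n).flatMap (fun i => F (k + i))
  | 0, k => by simp [scan]
  | n + 1, k => by
    rw [List.replicate_succ, scan]
    have h : List.replicate k d ++ [d] = List.replicate (k + 1) d := by
      rw [List.replicate_succ']
    rw [h, scan_range d F n (k + 1), List.range_succ_eq_map, List.flatMap_cons,
      List.flatMap_map, List.length_replicate, Nat.add_zero]
    congr 1
    refine List.flatMap_congr fun i _ => ?_
    congr 1
    omega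

/-- concatenation over `i < n` -/
theorem FP.rangeFlatMap {n : (Fin m → List C) → ℕ} (hn : FPN m n)
    {F : ℕ → (Fin m → List C) → List C}
    (hF : FP (m + 1) (fun σ => F (σ 0).length (fun i => σ i.succ))) :
    FP m (fun ρ => (List.range (n ρ)).flatMap fun i => F i ρ) := by
  refine (FP.scanOver hn (F := fun _ σ => F (σ 0).length (fun i => σ i.succ))
    (fun _ => hF)).congr fun ρ => ?_
  have h := scan_range default (fun i => F i ρ) (n ρ) 0
  simp only [List.replicate_zero, Nat.zero_add] at h
  exact h.symm

/-- sum over `i < n` -/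
theorem FPN.sum {n : (Fin m → List C) → ℕ} (hn : FPN m n) {f : ℕ → (Fin m → List C) → ℕ}
    (hf : FPN (m + 1) (fun σ => f (σ 0).length (fun i => σ i.succ))) :
    FPN m (fun ρ => ∑ i ∈ Finset.range (n ρ), f i ρ) := by
  refine (FPN.len (FP.rangeFlatMap hn (F := fun i ρ => List.replicate (f i ρ) (default : C))
    hf)).congr fun ρ => ?_
  rw [List.length_flatMap]
  simp only [List.length_replicate]
  rfl

/-- number of `i < n` with a property -/
theorem FPN.count {n : (Fin m → List C) → ℕ} (hn : FPN m n) {b : ℕ → (Fin m → List C) → Bool}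
    (hb : FPB (m + 1) (fun σ => b (σ 0).length (fun i => σ i.succ))) :
    FPN m (fun ρ => (List.range (n ρ)).countP fun i => b i ρ) := by
  refine (FPN.len (FP.rangeFlatMap hn (F := fun i ρ => if b i ρ then [(default : C)] else [])
    hb)).congr fun ρ => ?_
  generalize List.range (n ρ) = l
  induction l with
  | nil => rfl
  | cons x l ih =>
    rw [List.countP_cons, ih, List.flatMap_cons, List.length_append]
    by_cases h : b x ρ = true
    · simp [h, Nat.add_comm]
    · simp [h]

theorem div_eq_count (a b : ℕ) : a / b =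
    (List.range a).countP fun i => decide (0 < b) && decide ((i + 1) * b ≤ a) := by
  rcases Nat.eq_zero_or_pos b with rfl | hb
  · simp
  · have h : ∀ n, n ≤ a → ((List.range n).countP fun i => decide (0 < b) &&
        decide ((i + 1) * b ≤ a)) = min n (a / b) := by
      intro n
      induction n with
      | zero => simp
      | succ n ih =>
        intro hn
        rw [List.range_succ, List.countP_append, ih (by omega), List.countP_singleton]
        have h1 : (n + 1) * b ≤ a ↔ n + 1 ≤ a / b := (Nat.le_div_iff_mul_le hb).symm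
        by_cases h2 : (n + 1) * b ≤ a
        · have h3 := h1.1 h2
          simp only [hb, h2, decide_true, Bool.and_self, if_true]
          omega
        · have h3 : ¬ n + 1 ≤ a / b := fun h => h2 (h1.2 h)
          simp only [hb, h2, decide_true, decide_false, Bool.and_false, Bool.false_eq_true,
            if_false]
          omega
    rw [h a le_rfl]
    have := Nat.div_le_self a b
    omega

theorem FPN.div {e e' : (Fin m → List C) → ℕ} (h : FPN m e) (h' : FPN m e') :
    FPN m (fun ρ => e ρ / e' ρ) := by
  refine (FPN.count h (b := fun i ρ => decide (0 < e' ρ) && decide ((i + 1) * e' ρ ≤ e ρ))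
    ?_).congr fun ρ => div_eq_count _ _
  exact (FPB.ltN (FPN.const 0) h'.weak).and
    (FPB.leN ((FPN.v0.add (FPN.const 1)).mul h'.weak) h.weak)

theorem FPN.mod {e e' : (Fin m → List C) → ℕ} (h : FPN m e) (h' : FPN m e') :
    FPN m (fun ρ => e ρ % e' ρ) :=
  (h.sub (h'.mul (h.div h'))).congr fun ρ => by
    have := Nat.mod_add_div (e ρ) (e' ρ)
    omega

theorem FPB.exists {n : (Fin m → List C) → ℕ} (hn : FPN m n) {b : ℕ → (Fin m → List C) → Bool}
    (hb : FPB (m + 1) (fun σ => b (σ 0).length (fun i => σ i.succ))) :
    FPB m (fun ρ => decide (∃ i < n ρ, b i ρ = true)) := by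
  refine (FPB.ltN (FPN.const 0) (FPN.count hn hb)).congr fun ρ => ?_
  rw [Bool.eq_iff_iff, decide_eq_true_iff, decide_eq_true_iff, List.countP_pos_iff]
  simp

/-- one doubling step -/
def dbl (N : ℕ) (x : ℕ) : ℕ := if x < N then x + x else x

theorem dbl_iter (N : ℕ) : ∀ j : ℕ, (dbl N)^[j] 1 = 2 ^ min j (Nat.clog 2 N)
  | 0 => by simp
  | j + 1 => by
    rw [Function.iterate_succ_apply', dbl_iter N j, dbl]
    rcases le_or_gt (Nat.clog 2 N) j with h | h
    · rw [min_eq_right h, min_eq_right (by omega)]
      have := Nat.le_pow_clog (b := 2) (by norm_num) N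
      rw [if_neg (by omega)]
    · rw [min_eq_left (by omega), min_eq_left (by omega)]
      have h1 : 2 ^ j < N := by
        by_contra h2
        push Not at h2
        have := (Nat.clog_le_iff_le_pow (b := 2) (by norm_num)).2 h2
        omega
      rw [if_pos h1, pow_succ]
      ring

theorem clog_le_self' (N : ℕ) : Nat.clog 2 N ≤ N :=
  (Nat.clog_le_iff_le_pow (b := 2) (by norm_num)).2 (Nat.lt_two_pow_self).le

theorem FPN.pow2clog [Fintype C] {e : (Fin m → List C) → ℕ} (h : FPN m e) :
    FPN m (fun ρ => 2 ^ Nat.clog 2 (e ρ)) := by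
  have step : FP (C := C) (m + 1) (fun σ => List.replicate
      (dbl (e (fun i => σ i.succ)) (σ 0).length) default) :=
    (FPN.ite (FPB.ltN FPN.v0 h.weak) (FPN.v0.add FPN.v0) FPN.v0 :
      FPN (C := C) (m + 1) _).congr fun σ => by
        unfold dbl
        by_cases h : (σ 0).length < e (fun i => σ i.succ)
        · rw [if_pos h, if_pos (by simpa using h)]
        · rw [if_neg h, if_neg (by simpa using h)]
  obtain ⟨B, hB⟩ := FP.bound h
  have key : ∀ (ρ : Fin m → List C) (n : ℕ),
      (fun w : List C => List.replicate (dbl (e (fun i => (Matrix.vecCons w ρ) (Fin.succ i)))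
        ((Matrix.vecCons w ρ : Fin (m + 1) → List C) 0).length) (default : C))^[n] [default] =
        List.replicate ((dbl (e ρ))^[n] 1) default := by
    intro ρ n
    induction n with
    | zero => rfl
    | succ n ih =>
      rw [Function.iterate_succ_apply', ih, Function.iterate_succ_apply']
      simp
  have h2 := FP.iterate h (FP.const [(default : C)]) step (2 * B + 1) (by
    intro ρ n hn
    rw [key, List.length_replicate, dbl_iter]
    have h3 := hB ρ
    rw [List.length_replicate] at h3 hn
    have h4 : 2 ^ min n (Nat.clog 2 (e ρ)) ≤ 2 * e ρ + 1 := by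
      rcases Nat.lt_or_ge (e ρ) 2 with h5 | h5
      · have : Nat.clog 2 (e ρ) = 0 := Nat.clog_of_right_le_one (by omega) 2
        rw [this]
        simp
      · have h6 : 2 ^ (Nat.clog 2 (e ρ) - 1) < e ρ := Nat.pow_pred_clog_lt_self (by norm_num) h5
        have h7 : 1 ≤ Nat.clog 2 (e ρ) := Nat.clog_pos (by norm_num) h5
        have h8 : 2 ^ Nat.clog 2 (e ρ) = 2 * 2 ^ (Nat.clog 2 (e ρ) - 1) := by
          rw [← pow_succ']
          congr 1
          omega
        have h9 : 2 ^ min n (Nat.clog 2 (e ρ)) ≤ 2 ^ Nat.clog 2 (e ρ) :=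
          Nat.pow_le_pow_right (by norm_num) (min_le_right _ _)
        omega
    have h5 : (2 * B + 1).eval (size ρ) = 2 * B.eval (size ρ) + 1 := by
      simp
    omega)
  refine h2.congr fun ρ => ?_
  rw [key, List.length_replicate, dbl_iter]
  rw [min_eq_right (clog_le_self' _)]

theorem clog_eq_count (N : ℕ) : Nat.clog 2 N =
    (List.range N).countP fun i => decide (2 ^ Nat.clog 2 i = i) := by
  induction N with
  | zero => simp
  | succ n ih =>
    rw [List.range_succ, List.countP_append, ← ih, List.countP_singleton]
    have h1 := Nat.le_pow_clog (b := 2) (by norm_num) n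
    by_cases h : 2 ^ Nat.clog 2 n = n
    · have h2 : Nat.clog 2 (n + 1) = Nat.clog 2 n + 1 := by
        apply le_antisymm
        · rw [Nat.clog_le_iff_le_pow (by norm_num), pow_succ, h]
          have : 0 < n := by
            rcases Nat.eq_zero_or_pos n with rfl | h3
            · simp at h
            · exact h3
          omega
        · by_contra h3
          have h4 : Nat.clog 2 (n + 1) ≤ Nat.clog 2 n := by omega
          rw [Nat.clog_le_iff_le_pow (by norm_num), h] at h4
          omega
      rw [h2]
      simp [h]
    · have h2 : Nat.clog 2 (n + 1) = Nat.clog 2 n := by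
        apply le_antisymm
        · rw [Nat.clog_le_iff_le_pow (by norm_num)]
          omega
        · exact Nat.clog_mono_right 2 (Nat.le_succ n)
      rw [h2]
      simp [h]

theorem FPN.clog [Fintype C] {e : (Fin m → List C) → ℕ} (h : FPN m e) :
    FPN m (fun ρ => Nat.clog 2 (e ρ)) := by
  refine (FPN.count h (b := fun i _ => decide (2 ^ Nat.clog 2 i = i)) ?_).congr
    fun ρ => clog_eq_count _
  exact FPB.eqN (FPN.pow2clog FPN.v0) FPN.v0

/-- the value of a binary word, bounded by a given number -/
theorem FPN.bits [Fintype C] {A : (Fin m → List C) → List C} (hA : FP m A)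
    {e : (Fin m → List C) → ℕ} (h : FPN m e) (g : C → Bool) :
    FPN m (fun ρ => min (val ((A ρ).map g)) (e ρ)) := by
  have step : ∀ c : C, FP (C := C) (m + 2) (fun σ => List.replicate
      (min ((g c).toNat + 2 * (σ 0).length) (e (fun i => σ i.succ.succ))) default) := by
    intro c
    have h1 : FPN (C := C) (m + 2) (fun σ => (g c).toNat + 2 * (σ 0).length) :=
      (FPN.const _).add ((FPN.const 2).mul (FPN.len (FP.var 0)))
    have h2 : FPN (C := C) (m + 2) (fun σ => e (fun i => σ i.succ.succ)) := h.weak.weak
    refine (FPN.ite (FPB.leN h1 h2) h1 h2 : FPN (C := C) (m + 2) _).congr fun σ => ?_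
    beta_reduce
    congr 1
    by_cases h3 : (g c).toNat + 2 * (σ 0).length ≤ e (fun i => σ i.succ.succ)
    · rw [min_eq_left h3, if_pos (by simpa using h3)]
    · rw [min_eq_right (by omega), if_neg (by simpa using h3)]
  have key : ∀ (N : ℕ) (d : List C),
      foldS (fun c _ w => List.replicate (min ((g c).toNat + 2 * w.length) N) (default : C)) [] []
        d = List.replicate (min (val (d.reverse.map g)) N) default := by
    intro N d
    induction d using List.reverseRecOn with
    | nil => simp [foldS, Pool.Agent.UT.val]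
    | append_singleton d c ih =>
      rw [foldS_append, ih, List.reverse_append, List.reverse_singleton, List.singleton_append,
        List.map_cons, Pool.Agent.UT.val]
      simp only [foldS]
      congr 1
      rw [List.length_replicate]
      omega
  obtain ⟨B, hB⟩ := FP.bound h
  have h2 := hA.reverse.foldOver (F := fun c σ => List.replicate
      (min ((g c).toNat + 2 * (σ 0).length) (e (fun i => σ i.succ.succ))) default) step
      (FP.const []) B (by
    intro ρ d l hd
    have h3 := key (e ρ) d
    have h4 := hB ρ
    rw [List.length_replicate] at h4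
    refine le_trans (le_of_eq (congrArg List.length h3)) ?_
    rw [List.length_replicate]
    omega)
  refine h2.congr fun ρ => ?_
  have h3 := key (e ρ) (A ρ).reverse
  rw [List.reverse_reverse] at h3
  exact h3.symm

end Pool.Agent.UT.Num
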