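import Pool.Agent.Helper87_UT.Num

/-!
# UT, module TNX: the next move of the tester is computed in polynomial time
-/

set_option autoImplicit false

namespace Pool.Agent.UT.H87

open Turing Computability Pool.Agent.UT Pool.Agent.UT.Num Pool.Agent.H2XG
open Pool.Agent.Common_CookLevin (PolyFn polyFn_flatMap)

/-- letters -/
inductive CL
  | u
  | view (x : ViewLetter)
  | mv (x : MoveLetter)
  | inp (x : Bool ⊕ Bool)
  | bit (b : Bool)
  deriving DecidableEq, Fintype

instance : Inhabited CL := ⟨.u⟩

/-- `tκ` etc. of a number -/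
theorem fpn_tκ {m : ℕ} {e : (Fin m → List CL) → ℕ} (h : FPN m e) : FPN m (fun ρ => tκ (e ρ)) :=
  FPN.clog ((FPN.const 5).mul (((FPN.const 16).mul h).pow 2))

theorem fpn_tk {m : ℕ} {e : (Fin m → List CL) → ℕ} (h : FPN m e) : FPN m (fun ρ => tk (e ρ)) :=
  FPN.pow2clog ((FPN.const 5).mul (((FPN.const 16).mul h).pow 2))

theorem fpn_tt {m : ℕ} {e : (Fin m → List CL) → ℕ} (h : FPN m e) : FPN m (fun ρ => tt (e ρ)) :=
  ((FPN.const 500).mul (((FPN.const 16).mul h).pow 2)).pow 2

theorem fpn_tm {m : ℕ} {e : (Fin m → List CL) → ℕ} (h : FPN m e) : FPN m (fun ρ => tm (e ρ)) :=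
  ((FPN.const 16).mul (((FPN.const 16).mul h).pow 4)).mul
    (((fpn_tk h).mul (fpn_tt h)).add (FPN.const 8))

theorem fpn_tQ {m : ℕ} {e : (Fin m → List CL) → ℕ} (h : FPN m e) : FPN m (fun ρ => tQ (e ρ)) :=
  ((fpn_tk h).mul (fpn_tt h)).add ((FPN.const 2).mul (fpn_tm h))

/-- the bits of the first word of an input of `V` -/
def lefts (w : List CL) : List Bool := w.flatMap fun c => match c with
  | .inp (.inl b) => [b]
  | _ => []

/-- the bits of the second word of an input of `V` -/
def rights (w : List CL) : List Bool := w.flatMap fun c => match c with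
  | .inp (.inr b) => [b]
  | _ => []

theorem cps {α β γ A B D : Type} {ea : α → List A} {eb : β → List B} {ec : γ → List D}
    {f : α → β} {g : β → γ} (h : PT ea eb f) (h' : PT eb ec g) : PT ea ec (fun x => g (f x)) := by
  obtain ⟨c1⟩ := h
  obtain ⟨c2⟩ := h'
  exact Pool.Agent.Helper32_Poly.TM2ComputableInPolyTime.comp c1 c2

/-- the call of `V` -/
theorem pt_call {V : List Bool × List Bool → Bool}
    (hV : PT (fun z : List Bool × List Bool => z.1.map Sum.inl ++ z.2.map Sum.inr) encodeBool V) :
    H2XG.PT (fun w : List CL => [CL.bit (V (lefts w, rights w))]) := by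
  have h1 : H2XG.PT (fun w : List CL => (w.flatMap fun c => match c with
      | .inp (.inl b) => [CL.inp (.inl b)]
      | _ => []) ++ (w.flatMap fun c => match c with
      | .inp (.inr b) => [CL.inp (.inr b)]
      | _ => [])) := by
    have := FP.pt (FP.append (FP.flatMap (C := CL) (m := 1) (FP.var 0) (F := fun c _ => match c with
      | .inp (.inl b) => [CL.inp (.inl b)]
      | _ => []) (fun c => FP.const _)) (FP.flatMap (C := CL) (m := 1) (FP.var 0)
        (F := fun c _ => match c with
      | .inp (.inr b) => [CL.inp (.inr b)]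
      | _ => []) (fun c => FP.const _)))
    exact this
  have h2 : PolyFn (fun w : List CL => w.flatMap fun c => match c with
      | .inp x => [x]
      | _ => ([] : List (Bool ⊕ Bool))) := polyFn_flatMap _
  have h3 : PT (id : List CL → List CL)
      (fun z : List Bool × List Bool => z.1.map Sum.inl ++ z.2.map Sum.inr)
      (fun w : List CL => (lefts w, rights w)) := by
    refine (PolyFn.comp h1 h2).computable _ _ _ ?_
    intro w
    simp only [id, List.flatMap_append, List.flatMap_assoc, lefts, rights, List.map_flatMap]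
    congr 1
    · refine List.flatMap_congr fun c _ => ?_
      rcases c with _ | _ | _ | (_ | _) | _ <;> rfl
    · refine List.flatMap_congr fun c _ => ?_
      rcases c with _ | _ | _ | (_ | _) | _ <;> rfl
  have h6 : PolyFn (fun w : List Bool => w.flatMap fun b => [CL.bit b]) := polyFn_flatMap _
  exact cps (cps h3 hV) (h6.computable encodeBool (id : List CL → List CL)
    (fun b => [CL.bit b]) (fun b => rfl))

/-- the letters which are needed -/
def getA (w : List CL) : List CL := w.flatMap fun c => match c with
  | .view .a => [.u]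
  | _ => []

/-- the coins -/
def getC (w : List CL) : List CL := w.flatMap fun c => match c with
  | .view (.coin b) => [.bit b]
  | _ => []

/-- the answers -/
def getR (w : List CL) : List CL := w.flatMap fun c => match c with
  | .view (.answer b) => [.bit b]
  | _ => []

/-- first word of an input of `V` -/
def inL (w : List CL) : List CL := w.flatMap fun c => match c with
  | .bit b => [.inp (.inl b)]
  | _ => []

/-- second word of an input of `V` -/
def inR (w : List CL) : List CL := w.flatMap fun c => match c with
  | .bit b => [.inp (.inr b)]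
  | _ => []

/-- the word for the language -/
def wEnc (n : ℕ) (L R : List CL) : List CL :=
  ((List.range n).flatMap fun _ => [CL.bit false, .bit false, .bit false]) ++
    (L.flatMap fun c => [CL.bit true, .bit false, c]) ++
    R.flatMap fun c => [CL.bit true, .bit true, c]

theorem wEnc_eq (n : ℕ) (L R : List Bool) :
    wEnc n (L.map .bit) (R.map .bit) = (tEnc n L R).map .bit := by
  unfold wEnc tEnc
  simp only [List.map_append, List.map_flatMap, List.flatMap_map, List.map_cons, List.map_nil]

theorem call_eq (W R : List Bool) :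
    lefts (inL (W.map .bit) ++ inR (R.map .bit)) = W ∧
    rights (inL (W.map .bit) ++ inR (R.map .bit)) = R := by
  unfold lefts rights inL inR
  simp only [List.flatMap_append, List.flatMap_map, List.flatMap_assoc, List.flatMap_cons,
    List.flatMap_nil, List.append_nil]
  simp

/-- the body -/
noncomputable def tBody (V : List Bool × List Bool → Bool) (p : Polynomial ℕ) (u : List CL) :
    List CL :=
  if (getR u).length < tQ (getA u).length * tQ (getA u).length then
    List.replicate ((getR u).length / tQ (getA u).length) (.mv .i) ++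
      List.replicate ((getR u).length % tQ (getA u).length) (.mv .j)
  else
    let W := wEnc (getA u).length ((getC u).take (2 * tm (getA u).length * tκ (getA u).length))
      (getR u)
    let f : ℕ → Bool := fun i => V (lefts (inL W ++ inR (((getC u).drop
        (2 * tm (getA u).length * tκ (getA u).length + i * p.eval W.length)).take
          (p.eval W.length))),
      rights (inL W ++ inR (((getC u).drop
        (2 * tm (getA u).length * tκ (getA u).length + i * p.eval W.length)).take
          (p.eval W.length))))
    [.mv (.out (maj3 (f 0) (f 1) (f 2)))]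

theorem get_eq (v : View) : getA (v.enc.map .view) = List.replicate v.a .u ∧
    getC (v.enc.map .view) = v.coins.map .bit ∧ getR (v.enc.map .view) = v.answers.map .bit := by
  unfold getA getC getR View.enc
  simp only [List.map_append, List.map_replicate, List.map_map, List.flatMap_append,
    List.flatMap_map, Function.comp_def]
  refine ⟨?_, ?_, ?_⟩ <;> simp [List.flatMap_replicate, List.map_eq_flatMap]

theorem body_eq (V : List Bool × List Bool → Bool) (p : Polynomial ℕ) (v : View) :
    tBody V p (v.enc.map .view) = (Move.enc (tNext V p v)).map .mv := by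
  obtain ⟨h1, h2, h3⟩ := get_eq v
  unfold tBody tNext
  rw [h1, h2, h3]
  simp only [List.length_replicate, List.length_map, ← List.map_take, ← List.map_drop, wEnc_eq,
    (call_eq _ _).1, (call_eq _ _).2]
  split_ifs with h
  · simp [Move.enc]
  · simp [Move.enc]

theorem fp_getA {m : ℕ} {A : (Fin m → List CL) → List CL} (hA : FP m A) :
    FP m (fun ρ => getA (A ρ)) := FP.flatMap hA (F := fun c _ => _) (fun c => FP.const _)

theorem fp_getC {m : ℕ} {A : (Fin m → List CL) → List CL} (hA : FP m A) :
    FP m (fun ρ => getC (A ρ)) := FP.flatMap hA (F := fun c _ => _) (fun c => FP.const _)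

theorem fp_getR {m : ℕ} {A : (Fin m → List CL) → List CL} (hA : FP m A) :
    FP m (fun ρ => getR (A ρ)) := FP.flatMap hA (F := fun c _ => _) (fun c => FP.const _)

theorem fp_inL {m : ℕ} {A : (Fin m → List CL) → List CL} (hA : FP m A) :
    FP m (fun ρ => inL (A ρ)) := FP.flatMap hA (F := fun c _ => _) (fun c => FP.const _)

theorem fp_inR {m : ℕ} {A : (Fin m → List CL) → List CL} (hA : FP m A) :
    FP m (fun ρ => inR (A ρ)) := FP.flatMap hA (F := fun c _ => _) (fun c => FP.const _)

theorem fp_wEnc {m : ℕ} {e : (Fin m → List CL) → ℕ} (he : FPN m e)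
    {A B : (Fin m → List CL) → List CL} (hA : FP m A) (hB : FP m B) :
    FP m (fun ρ => wEnc (e ρ) (A ρ) (B ρ)) :=
  FP.append (FP.append (FP.rangeFlatMap he (F := fun _ _ => _) (FP.const _))
    (FP.flatMap hA (F := fun c _ => _) (fun c => FP.const _)))
    (FP.flatMap hB (F := fun c _ => _) (fun c => FP.const _))

theorem fpb_call {V : List Bool × List Bool → Bool}
    (hV : PT (fun z : List Bool × List Bool => z.1.map Sum.inl ++ z.2.map Sum.inr) encodeBool V)
    {m : ℕ} {X : (Fin m → List CL) → List CL} (hX : FP m X) :
    FPB m (fun ρ => V (lefts (X ρ), rights (X ρ))) :=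
  (FPB.last (FP.call (pt_call hV) hX) (fun o => match o with
    | some (.bit b) => b
    | _ => false)).congr fun ρ => rfl

theorem fp_body {V : List Bool × List Bool → Bool}
    (hV : PT (fun z : List Bool × List Bool => z.1.map Sum.inl ++ z.2.map Sum.inr) encodeBool V)
    (p : Polynomial ℕ) : FP 1 (fun ρ : Fin 1 → List CL => tBody V p (ρ 0)) := by
  have hA : FPN 1 (fun ρ : Fin 1 → List CL => (getA (ρ 0)).length) :=
    FPN.len (fp_getA (FP.var 0))
  have hR : FP 1 (fun ρ : Fin 1 → List CL => getR (ρ 0)) := fp_getR (FP.var 0)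
  have hC : FP 1 (fun ρ : Fin 1 → List CL => getC (ρ 0)) := fp_getC (FP.var 0)
  have hQ := fpn_tQ hA
  have hL : FPN 1 (fun ρ : Fin 1 → List CL => 2 * tm (getA (ρ 0)).length *
      tκ (getA (ρ 0)).length) := ((FPN.const 2).mul (fpn_tm hA)).mul (fpn_tκ hA)
  have hW := fp_wEnc hA (FP.takeNum hC hL) hR
  have hP := (FPN.len hW).poly p
  have hf : ∀ i : ℕ, FPB 1 (fun ρ : Fin 1 → List CL => V
      (lefts (inL (wEnc (getA (ρ 0)).length ((getC (ρ 0)).take (2 * tm (getA (ρ 0)).length *
        tκ (getA (ρ 0)).length)) (getR (ρ 0))) ++ inR (((getC (ρ 0)).drop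
        (2 * tm (getA (ρ 0)).length * tκ (getA (ρ 0)).length + i *
          p.eval (wEnc (getA (ρ 0)).length ((getC (ρ 0)).take (2 * tm (getA (ρ 0)).length *
            tκ (getA (ρ 0)).length)) (getR (ρ 0))).length)).take
          (p.eval (wEnc (getA (ρ 0)).length ((getC (ρ 0)).take (2 * tm (getA (ρ 0)).length *
            tκ (getA (ρ 0)).length)) (getR (ρ 0))).length))),
      rights (inL (wEnc (getA (ρ 0)).length ((getC (ρ 0)).take (2 * tm (getA (ρ 0)).length *
        tκ (getA (ρ 0)).length)) (getR (ρ 0))) ++ inR (((getC (ρ 0)).drop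
        (2 * tm (getA (ρ 0)).length * tκ (getA (ρ 0)).length + i *
          p.eval (wEnc (getA (ρ 0)).length ((getC (ρ 0)).take (2 * tm (getA (ρ 0)).length *
            tκ (getA (ρ 0)).length)) (getR (ρ 0))).length)).take
          (p.eval (wEnc (getA (ρ 0)).length ((getC (ρ 0)).take (2 * tm (getA (ρ 0)).length *
            tκ (getA (ρ 0)).length)) (getR (ρ 0))).length))))) := fun i =>
    fpb_call hV (FP.append (fp_inL hW) (fp_inR (FP.takeNum (FP.dropNum hC
      (hL.add ((FPN.const i).mul hP))) hP)))
  have hout := FP.ite ((((hf 0).and (hf 1)).or ((hf 0).and (hf 2))).or ((hf 1).and (hf 2)))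
    (FP.const [CL.mv (.out true)]) (FP.const [CL.mv (.out false)])
  have hq := FP.append (FP.rep ((FPN.len hR).div hQ) (CL.mv .i))
    (FP.rep ((FPN.len hR).mod hQ) (CL.mv .j))
  refine (FP.ite (FPB.ltN (FPN.len hR) (hQ.mul hQ)) hq hout).congr fun ρ => ?_
  unfold tBody
  by_cases h : (getR (ρ 0)).length < tQ (getA (ρ 0)).length * tQ (getA (ρ 0)).length
  · rw [if_pos h, if_pos (by simpa using h)]
  · rw [if_neg h, if_neg (by simpa using h)]
    simp only [maj3]
    split_ifs with h1
    · rw [h1]
    · rw [Bool.not_eq_true] at h1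
      rw [h1]

theorem tnx : TnxStmt := by
  intro V p hV
  have h1 : PT View.enc (id : List CL → List CL) (fun v => v.enc.map CL.view) := by
    have h : PolyFn (fun w : List ViewLetter => w.flatMap fun c => [CL.view c]) :=
      polyFn_flatMap _
    exact h.computable _ _ _ (fun v => by rw [id, List.map_eq_flatMap])
  have h2 : PT (id : List CL → List CL) (id : List CL → List CL) (fun w => tBody V p w) :=
    FP.pt (fp_body hV p)
  have h3 : PolyFn (fun w : List CL => w.flatMap fun c => match c with
      | .mv x => [x]
      | _ => []) := polyFn_flatMap _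
  have h4 := cps (cps h1 h2) h3
  obtain ⟨c⟩ := h4
  refine ⟨⟨c.toTM2ComputableAux, c.time, fun v => ?_⟩⟩
  have h5 := c.outputsFun v
  have h6 : (id ((tBody V p (v.enc.map CL.view)).flatMap fun c => match c with
      | .mv x => [x]
      | _ => []) : List MoveLetter) = Move.enc (tNext V p v) := by
    rw [id, body_eq, List.flatMap_map]
    simp
  rw [← h6]
  exact h5

end Pool.Agent.UT.H87
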