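import Pool.Agent.Helper87_UT.Npl
import Pool.Agent.Helper2_XG.Clk

/-!
# UT, module DAT: the data of the reduction can be computed in polynomial time
-/

set_option autoImplicit false

namespace Pool.Agent.UT.H87

open Finset Turing Computability Pool.Agent.UT Pool.Agent.UT.Num Pool.Agent.H2XG
open Pool.Agent.Common_CookLevin (PolyFn polyFn_flatMap CNF encodeCNF CNFLetter)
open Pool.Agent.Helper76_Bisect
open Pool.Agent.Helper53_CookLevin (scan scan_append)

/-- letters -/
inductive DL
  | one
  | inp (c : CNFLetter)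
  | out (c : ILetter)
deriving DecidableEq, Fintype

instance : Inhabited DL := ⟨.one⟩

variable {m : ℕ}

/-- is this the first letter of a token? -/
def isTok : DL → Bool
  | .inp .clause => true
  | .inp .pos => true
  | .inp .neg => true
  | _ => false

/-- one step for `tv` -/
def tvF (i : ℕ) (p : List DL) (c : DL) : List DL :=
  if c = DL.inp .tick ∧ (p.filter isTok).length = i + 1 then [DL.one] else []

/-- number of ticks of token `i` -/
def tv (i : ℕ) (w : List DL) : ℕ := (scan (tvF i) [] w).length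

/-- encoding of a token -/
def encTok : Option (ℕ × Bool) → List DL
  | none => [.inp .clause]
  | some (v, s) => (if s then .inp .pos else .inp .neg) :: List.replicate v (.inp .tick)

/-- first letter of a token -/
def headTok : Option (ℕ × Bool) → DL
  | none => .inp .clause
  | some (_, s) => if s then .inp .pos else .inp .neg

/-- value of a token -/
def valTok : Option (Option (ℕ × Bool)) → ℕ
  | some (some (v, _)) => v
  | _ => 0

theorem map_encode (F : CNF) : (encodeCNF F).map DL.inp = (toks F).flatMap encTok := by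
  unfold encodeCNF toks
  rw [List.map_flatMap, List.flatMap_assoc]
  refine List.flatMap_congr fun C _ => ?_
  rw [List.map_cons, List.map_flatMap, List.flatMap_cons, List.flatMap_map]
  have h : ∀ l : ℕ × Bool, List.map DL.inp ((if l.2 = true then CNFLetter.pos else .neg) ::
      List.replicate l.1 .tick) = encTok (some l) := by
    rintro ⟨v, _ | _⟩ <;> simp [encTok]
  simp only [h]
  rfl

theorem filter_encTok (a : Option (ℕ × Bool)) : (encTok a).filter isTok = [headTok a] := by
  rcases a with _ | ⟨v, _ | _⟩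
  · rfl
  · simp [encTok, headTok, isTok, List.filter_cons]
  · simp [encTok, headTok, isTok, List.filter_cons]

theorem filter_toks (L : List (Option (ℕ × Bool))) :
    (L.flatMap encTok).filter isTok = L.map headTok := by
  induction L with
  | nil => rfl
  | cons a L ih => rw [List.flatMap_cons, List.filter_append, filter_encTok, ih]; rfl

theorem scan_ticks (i : ℕ) : ∀ (v : ℕ) (p : List DL),
    (scan (tvF i) p (List.replicate v (.inp .tick))).length =
      if (p.filter isTok).length = i + 1 then v else 0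
  | 0, p => by simp [scan]
  | v + 1, p => by
    rw [List.replicate_succ, scan, List.length_append, scan_ticks i v]
    have h : ((p ++ [DL.inp .tick]).filter isTok) = p.filter isTok := by
      rw [List.filter_append]; simp [isTok]
    rw [h, tvF]
    by_cases h1 : (p.filter isTok).length = i + 1
    · simp [h1]
      omega
    · simp [h1]

theorem scan_tok (i : ℕ) (a : Option (ℕ × Bool)) (p : List DL) :
    (scan (tvF i) p (encTok a)).length =
      if (p.filter isTok).length = i then valTok (some a) else 0 := by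
  rcases a with _ | ⟨v, s⟩
  · simp [encTok, scan, tvF, valTok]
  · unfold encTok
    rw [scan, List.length_append, scan_ticks]
    have h : ((p ++ [if s = true then DL.inp .pos else .inp .neg]).filter isTok).length =
        (p.filter isTok).length + 1 := by
      rw [List.filter_append, List.length_append]; cases s <;> rfl
    rw [h]
    have h2 : tvF i p (if s = true then DL.inp .pos else .inp .neg) = [] := by
      cases s <;> simp [tvF]
    rw [h2]
    simp [valTok]

theorem scan_toks (i : ℕ) : ∀ (L : List (Option (ℕ × Bool))) (p : List DL),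
    (scan (tvF i) p (L.flatMap encTok)).length =
      if (p.filter isTok).length ≤ i then valTok L[i - (p.filter isTok).length]? else 0
  | [], p => by simp [scan, valTok]
  | a :: L, p => by
    rw [List.flatMap_cons, scan_append, List.length_append, scan_tok, scan_toks i L]
    have h : ((p ++ encTok a).filter isTok).length = (p.filter isTok).length + 1 := by
      rw [List.filter_append, filter_encTok, List.length_append, List.length_singleton]
    rw [h]
    generalize (p.filter isTok).length = k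
    rcases lt_trichotomy k i with h1 | h1 | h1
    · rw [if_neg (by omega), if_pos (by omega), if_pos (by omega)]
      obtain ⟨d, rfl⟩ : ∃ d, i = k + 1 + d := ⟨i - k - 1, by omega⟩
      rw [show k + 1 + d - (k + 1) = d by omega, show k + 1 + d - k = d + 1 by omega]
      simp
    · subst h1
      rw [if_pos rfl, if_neg (by omega), if_pos le_rfl]
      simp
    · rw [if_neg (by omega), if_neg (by omega), if_neg (by omega)]

theorem tv_eq (F : CNF) (i : ℕ) : tv i ((encodeCNF F).map DL.inp) = valTok (toks F)[i]? := by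
  unfold tv
  rw [map_encode, scan_toks]
  simp

theorem len_eq (F : CNF) : ((encodeCNF F).map DL.inp).length = vN F := List.length_map _

theorem filter_eq (F : CNF) : ((encodeCNF F).map DL.inp).filter isTok = (toks F).map headTok := by
  rw [map_encode, filter_toks]

/-- the gates, from the word -/
def gateW (w : List DL) (g : ℕ) : Gate ℕ 0 :=
  if decide (g < w.length) then .nand (2 * g + 1) (2 * g) (2 * g)
  else if (decide ((w.filter isTok)[(g - w.length) / 2]? = some (.inp .pos)) ||
      decide ((w.filter isTok)[(g - w.length) / 2]? = some (.inp .neg))) then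
    if decide ((g - w.length) % 2 = 0) then .nand (2 * w.length + 2 * ((g - w.length) / 2))
      (2 * w.length + 2 * ((g - w.length) / 2 - 1) + 1)
      (if decide ((w.filter isTok)[(g - w.length) / 2]? = some (.inp .pos)) then
        2 * tv ((g - w.length) / 2) w + 1 else 2 * tv ((g - w.length) / 2) w)
    else .nand (2 * w.length + 2 * ((g - w.length) / 2) + 1)
      (2 * w.length + 2 * ((g - w.length) / 2)) (2 * w.length + 2 * ((g - w.length) / 2))
  else if decide ((w.filter isTok)[(g - w.length) / 2]? = some (.inp .clause)) then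
    if (decide ((g - w.length) % 2 = 0) || decide ((g - w.length) / 2 = 0)) then
      .con (2 * w.length + 2 * ((g - w.length) / 2) + 1) true
    else .con (2 * w.length + 2 * ((g - w.length) / 2 - 1) + 1) false
  else if decide ((g - w.length) / 2 = 0) then .con 0 true
    else .con (2 * w.length + 2 * ((g - w.length) / 2 - 1) + 1) false

theorem gateW_eq (F : CNF) (g : ℕ) : gateW ((encodeCNF F).map DL.inp) g = gateAt F g := by
  unfold gateW gateAt
  rw [filter_eq, tv_eq, len_eq, List.getElem?_map]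
  by_cases h : g < vN F
  · simp [h]
  · generalize hx : (toks F)[(g - vN F) / 2]? = x
    rcases x with _ | _ | ⟨v, _ | _⟩
    · simp [h]
    · simp [h, headTok]
    · simp [h, headTok, valTok]
    · simp [h, headTok, valTok]

/-! ### Gates as functions in polynomial time -/

/-- accessor -/
def gNand : Gate ℕ 0 → Bool
  | .nand _ _ _ => true
  | _ => false

/-- accessor -/
def gCon : Gate ℕ 0 → Bool
  | .con _ _ => true
  | _ => false

/-- accessor -/
def gBit : Gate ℕ 0 → Bool
  | .con _ b => b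
  | _ => false

/-- accessor -/
def gZ : Gate ℕ 0 → ℕ
  | .con x _ => x
  | .nand z _ _ => z
  | .xin _ _ => 0

/-- accessor -/
def gA : Gate ℕ 0 → ℕ
  | .nand _ a _ => a
  | _ => 0

/-- accessor -/
def gB : Gate ℕ 0 → ℕ
  | .nand _ _ b => b
  | _ => 0

/-- gates computed in polynomial time -/
structure FPG (m : ℕ) (γ : (Fin m → List DL) → Gate ℕ 0) : Prop where
  nand : FPB m (fun ρ => gNand (γ ρ))
  con : FPB m (fun ρ => gCon (γ ρ))
  bit : FPB m (fun ρ => gBit (γ ρ))
  z : FPN m (fun ρ => gZ (γ ρ))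
  a : FPN m (fun ρ => gA (γ ρ))
  b : FPN m (fun ρ => gB (γ ρ))

theorem FPG.ite {b : (Fin m → List DL) → Bool} (hb : FPB m b)
    {γ γ' : (Fin m → List DL) → Gate ℕ 0} (h : FPG m γ) (h' : FPG m γ') :
    FPG m (fun ρ => if b ρ then γ ρ else γ' ρ) where
  nand := FPB.congr (FPB.ite hb h.nand h'.nand) fun ρ => by cases b ρ <;> rfl
  con := FPB.congr (FPB.ite hb h.con h'.con) fun ρ => by cases b ρ <;> rfl
  bit := FPB.congr (FPB.ite hb h.bit h'.bit) fun ρ => by cases b ρ <;> rfl
  z := FPN.congr (FPN.ite hb h.z h'.z) fun ρ => by cases b ρ <;> rfl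
  a := FPN.congr (FPN.ite hb h.a h'.a) fun ρ => by cases b ρ <;> rfl
  b := FPN.congr (FPN.ite hb h.b h'.b) fun ρ => by cases b ρ <;> rfl

theorem FPG.mkNand {z a b : (Fin m → List DL) → ℕ} (hz : FPN m z) (ha : FPN m a)
    (hb : FPN m b) : FPG m (fun ρ => .nand (z ρ) (a ρ) (b ρ)) :=
  ⟨FPB.const true, FPB.const false, FPB.const false, hz, ha, hb⟩

theorem FPG.mkCon {z : (Fin m → List DL) → ℕ} (hz : FPN m z) (b : Bool) :
    FPG m (fun ρ => .con (z ρ) b) :=
  ⟨FPB.const false, FPB.const true, FPB.const b, hz, FPN.const 0, FPN.const 0⟩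

theorem fpn_tv {w : (Fin m → List DL) → List DL} (hw : FP m w) {i : (Fin m → List DL) → ℕ}
    (hi : FPN m i) : FPN m (fun ρ => tv (i ρ) (w ρ)) := by
  refine FPN.len (FP.congr (FP.scanOver hw (F := fun c σ =>
    if c = DL.inp .tick ∧ ((σ 0).filter isTok).length = i (fun j => σ j.succ) + 1
      then [DL.one] else []) (fun c => ?_)) (fun ρ => ?_))
  · by_cases hc : c = DL.inp .tick
    · refine FP.congr (FP.ite (FPB.eqN (FPN.len ((FP.var (0 : Fin (m + 1))).filter isTok))
        (hi.weak.add (FPN.const 1))) (FP.const [DL.one]) (FP.const [])) fun σ => ?_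
      simp [hc]
    · refine (FP.const []).congr fun σ => ?_
      simp [hc]
  · rfl

theorem fpg_gateW {w : (Fin m → List DL) → List DL} (hw : FP m w)
    {g : (Fin m → List DL) → ℕ} (hg : FPN m g) : FPG m (fun ρ => gateW (w ρ) (g ρ)) := by
  have hv := FPN.len hw
  have hd := hg.sub hv
  have hi := hd.div (FPN.const 2)
  have hm := hd.mod (FPN.const 2)
  have hf := hw.filter isTok
  have hpos := FPB.getNum hf hi (fun o => decide (o = some (.inp .pos)))
  have hneg := FPB.getNum hf hi (fun o => decide (o = some (.inp .neg)))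
  have hcl := FPB.getNum hf hi (fun o => decide (o = some (.inp .clause)))
  have h2v := (FPN.const 2).mul hv
  have h2i := (FPN.const 2).mul hi
  have h2i1 := (FPN.const 2).mul (hi.sub (FPN.const 1))
  have ht := (FPN.const 2).mul (fpn_tv hw hi)
  have h2g := (FPN.const 2).mul hg
  have hA := (h2v.add h2i1).add (FPN.const 1)
  have hm0 := FPB.eqN hm (FPN.const 0)
  have hi0 := FPB.eqN hi (FPN.const 0)
  exact FPG.ite (FPB.ltN hg hv) (FPG.mkNand (h2g.add (FPN.const 1)) h2g h2g)
    (FPG.ite (hpos.or hneg)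
      (FPG.ite hm0 (FPG.mkNand (h2v.add h2i) hA (FPN.ite hpos (ht.add (FPN.const 1)) ht))
        (FPG.mkNand ((h2v.add h2i).add (FPN.const 1)) (h2v.add h2i) (h2v.add h2i)))
      (FPG.ite hcl (FPG.ite (hm0.or hi0) (FPG.mkCon ((h2v.add h2i).add (FPN.const 1)) true)
          (FPG.mkCon hA false))
        (FPG.ite hi0 (FPG.mkCon (FPN.const 0) true) (FPG.mkCon hA false))))

theorem gateEdge_eq (γ : Gate ℕ 0) (g u1 u2 v1 v2 : ℕ) : gateEdge γ g u1 u2 v1 v2 =
    ((gCon γ && (decide (u1 = gZ γ + 1) && (decide (u2 = if gBit γ then 5 * g + 1 else 0) &&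
      (decide (v1 = 0) && decide (v2 = 5 * g + 2))))) ||
    (gNand γ && (!decide (u2 = 0) && (decide ((u2 - 1) / 5 = g) &&
      (decide ((u2 - 1) % 5 < (v2 - 1) % 5) && (decide ((u2 - 1) % 5 ≤ 2) &&
        (decide (u1 = slotN (gZ γ) (gA γ) (gB γ) ((u2 - 1) % 5)) &&
          decide (v1 = slotN (gZ γ) (gA γ) (gB γ) ((v2 - 1) % 5))))))))) := by
  rw [Bool.eq_iff_iff]
  generalize hz : gZ γ = z'
  generalize ha : gA γ = a'
  generalize hb : gB γ = b'
  generalize hc : gBit γ = c'
  rcases γ with _ | ⟨x, b⟩ | ⟨z, a, b⟩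
  · simp [gateEdge, gCon, gNand]
  · simp only [gZ, gBit] at hz hc
    subst hz hc
    simp [gateEdge, gCon, gNand]
  · simp only [gZ, gA, gB] at hz ha hb
    subst hz ha hb
    simp [gateEdge, gCon, gNand]

theorem fpn_slot {γ : (Fin m → List DL) → Gate ℕ 0} (h : FPG m γ) {p : (Fin m → List DL) → ℕ}
    (hp : FPN m p) : FPN m (fun ρ => slotN (gZ (γ ρ)) (gA (γ ρ)) (gB (γ ρ)) (p ρ)) := by
  refine (FPN.ite (FPB.eqN hp (FPN.const 0)) (h.a.add (FPN.const 1))
    (FPN.ite (FPB.eqN hp (FPN.const 1)) (h.b.add (FPN.const 1))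
      (FPN.ite (FPB.eqN hp (FPN.const 2)) (FPN.const 0) (h.z.add (FPN.const 1))))).congr
    fun ρ => ?_
  unfold slotN
  simp only [decide_eq_true_eq]

theorem fpb_gateEdge {γ : (Fin m → List DL) → Gate ℕ 0} (h : FPG m γ)
    {g u1 u2 v1 v2 : (Fin m → List DL) → ℕ} (hg : FPN m g) (hu1 : FPN m u1) (hu2 : FPN m u2)
    (hv1 : FPN m v1) (hv2 : FPN m v2) :
    FPB m (fun ρ => gateEdge (γ ρ) (g ρ) (u1 ρ) (u2 ρ) (v1 ρ) (v2 ρ)) := by
  have hu5 := (hu2.sub (FPN.const 1)).mod (FPN.const 5)
  have hv5 := (hv2.sub (FPN.const 1)).mod (FPN.const 5)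
  have h5g := (FPN.const 5).mul hg
  refine FPB.congr ((h.con.and ((FPB.eqN hu1 (h.z.add (FPN.const 1))).and
    ((FPB.eqN hu2 (FPN.ite h.bit (h5g.add (FPN.const 1)) (FPN.const 0))).and
      ((FPB.eqN hv1 (FPN.const 0)).and (FPB.eqN hv2 (h5g.add (FPN.const 2))))))).or
    (h.nand.and ((FPB.eqN hu2 (FPN.const 0)).not.and
      ((FPB.eqN ((hu2.sub (FPN.const 1)).div (FPN.const 5)) hg).and
        ((FPB.ltN hu5 hv5).and ((FPB.leN hu5 (FPN.const 2)).and
          ((FPB.eqN hu1 (fpn_slot h hu5)).and (FPB.eqN hv1 (fpn_slot h hv5))))))))) fun ρ => ?_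
  exact gateEdge_eq _ _ _ _ _ _

/-! ### The graphs -/

/-- `kN` -/
def kW (w : List DL) : ℕ := 2 * w.length + 2 * (w.filter isTok).length + 1

/-- `lN` -/
def lW (w : List DL) : ℕ := w.length + 2 * (w.filter isTok).length + 1

/-- `uN` -/
def uW (w : List DL) : ℕ := (kW w + 1) * (5 * lW w + 1)

/-- `edgeN` -/
def edgeW (w : List DL) (u v : ℕ) : Bool :=
  !decide (v % (5 * lW w + 1) = 0) && ((decide (u / (5 * lW w + 1) = v / (5 * lW w + 1)) &&
      decide (u % (5 * lW w + 1) = 0)) ||
    gateEdge (gateW w ((v % (5 * lW w + 1) - 1) / 5)) ((v % (5 * lW w + 1) - 1) / 5)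
      (u / (5 * lW w + 1)) (u % (5 * lW w + 1)) (v / (5 * lW w + 1)) (v % (5 * lW w + 1)))

/-- `bisN` -/
def bisW (w : List DL) (i j : ℕ) : Bool :=
  !decide (i = j) && !((decide (i < uW w) && decide (j < uW w)) && (edgeW w i j || edgeW w j i))

/-- `kcN` -/
def kcW (w : List DL) : ℕ := uW w * uW w +
  ∑ g ∈ range (lW w), (if gNand (gateW w g) then 3 else 0) -
  ((kW w + 1) * (5 * lW w) + ∑ g ∈ range (lW w), (if gNand (gateW w g) then 9 else 1))

/-- `muN` -/
def muW (lam : ℕ) (w : List DL) : ℕ := Nat.clog 2 (16 * lam * (2 * uW w))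

/-- `sN` -/
def sW (lam : ℕ) (w : List DL) : ℕ := Nat.clog 2 (lam * (2 * uW w) * 2 ^ muW lam w)

/-- `LN` -/
def LW (lam : ℕ) (w : List DL) : ℕ := (2 ^ sW lam w - 2 * uW w * 2 ^ muW lam w) / 2

/-- `DN` -/
def DW (fl : ℕ → ℕ) (lam : ℕ) (w : List DL) : ℕ :=
  (fl ((2 ^ sW lam w) ^ 2) - (2 ^ muW lam w) ^ 2 * kcW w - (2 ^ muW lam w) ^ 2 / 2) / LW lam w

/-- `unitN` -/
def unitW (w : List DL) (L M D u v : ℕ) : Bool :=
  if decide (u < 2 * L) then
    decide (v < 2 * L) && (decide (u / L = v / L) ||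
      ((decide (u / L < v / L) && decide ((v % L + L - u % L) % L < D)) ||
        (decide (v / L < u / L) && decide ((u % L + L - v % L) % L < D))))
  else decide (2 * L ≤ v) && (decide ((u - 2 * L) / M = (v - 2 * L) / M) ||
    bisW w ((u - 2 * L) / M) ((v - 2 * L) / M))

theorem kW_eq (F : CNF) : kW ((encodeCNF F).map DL.inp) = kN F := by
  unfold kW kN
  rw [filter_eq, len_eq, List.length_map]

theorem lW_eq (F : CNF) : lW ((encodeCNF F).map DL.inp) = lN F := by
  unfold lW lN
  rw [filter_eq, len_eq, List.length_map]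

theorem uW_eq (F : CNF) : uW ((encodeCNF F).map DL.inp) = uN F := by
  unfold uW uN
  rw [kW_eq, lW_eq]

theorem edgeW_eq (F : CNF) (u v : ℕ) : edgeW ((encodeCNF F).map DL.inp) u v = edgeN F u v := by
  unfold edgeW edgeN
  simp only [lW_eq, gateW_eq, ne_eq, decide_not, Bool.decide_and]

theorem bisW_eq (F : CNF) (u v : ℕ) : bisW ((encodeCNF F).map DL.inp) u v = bisN F u v := by
  unfold bisW bisN
  simp only [uW_eq, edgeW_eq, ne_eq, decide_not, Bool.decide_and]

theorem kcW_eq (F : CNF) : kcW ((encodeCNF F).map DL.inp) = kcN F := by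
  unfold kcW kcN
  simp only [uW_eq, kW_eq, lW_eq, gateW_eq]
  have h1 : ∀ γ : Gate ℕ 0, (if gNand γ then 3 else 0) = defN γ := by
    intro γ; cases γ <;> simp [gNand, defN]
  have h2 : ∀ γ : Gate ℕ 0, (if gNand γ then 9 else 1) = esN γ := by
    intro γ; cases γ <;> simp [gNand, esN]
  simp only [h1, h2]

theorem muW_eq (lam : ℕ) (F : CNF) : muW lam ((encodeCNF F).map DL.inp) = muN lam F := by
  unfold muW muN
  rw [uW_eq]

theorem sW_eq (lam : ℕ) (F : CNF) : sW lam ((encodeCNF F).map DL.inp) = sN lam F := by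
  unfold sW sN
  rw [uW_eq, muW_eq]

theorem LW_eq (lam : ℕ) (F : CNF) : LW lam ((encodeCNF F).map DL.inp) = LN lam F := by
  unfold LW LN
  rw [uW_eq, muW_eq, sW_eq]

theorem four_pow (n : ℕ) : (4 : ℕ) ^ n = (2 ^ n) ^ 2 := by
  rw [← pow_mul, mul_comm, pow_mul]
  norm_num

theorem DW_eq (fl : ℕ → ℕ) (lam : ℕ) (F : CNF) :
    DW fl lam ((encodeCNF F).map DL.inp) = DN fl lam F := by
  unfold DW DN
  rw [muW_eq, sW_eq, LW_eq, kcW_eq, four_pow, four_pow]

theorem unitW_eq (F : CNF) (L M D u v : ℕ) :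
    unitW ((encodeCNF F).map DL.inp) L M D u v = unitN F L M D u v := by
  unfold unitW unitN
  simp only [bisW_eq, Bool.decide_and, decide_eq_true_eq]

section

variable {w : (Fin m → List DL) → List DL} (hw : FP m w)
include hw

theorem fpn_kW : FPN m (fun ρ => kW (w ρ)) :=
  (((FPN.const 2).mul (FPN.len hw)).add ((FPN.const 2).mul (FPN.len (hw.filter isTok)))).add
    (FPN.const 1)

theorem fpn_lW : FPN m (fun ρ => lW (w ρ)) :=
  ((FPN.len hw).add ((FPN.const 2).mul (FPN.len (hw.filter isTok)))).add (FPN.const 1)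

theorem fpn_uW : FPN m (fun ρ => uW (w ρ)) :=
  ((fpn_kW hw).add (FPN.const 1)).mul (((FPN.const 5).mul (fpn_lW hw)).add (FPN.const 1))

theorem fpb_edgeW {u v : (Fin m → List DL) → ℕ} (hu : FPN m u) (hv : FPN m v) :
    FPB m (fun ρ => edgeW (w ρ) (u ρ) (v ρ)) := by
  have hx := ((FPN.const 5).mul (fpn_lW hw)).add (FPN.const 1)
  have hg := ((hv.mod hx).sub (FPN.const 1)).div (FPN.const 5)
  exact ((FPB.eqN (hv.mod hx) (FPN.const 0)).not).and
    ((((FPB.eqN (hu.div hx) (hv.div hx)).and (FPB.eqN (hu.mod hx) (FPN.const 0)))).or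
      (fpb_gateEdge (fpg_gateW hw hg) hg (hu.div hx) (hu.mod hx) (hv.div hx) (hv.mod hx)))

theorem fpb_bisW {u v : (Fin m → List DL) → ℕ} (hu : FPN m u) (hv : FPN m v) :
    FPB m (fun ρ => bisW (w ρ) (u ρ) (v ρ)) :=
  ((FPB.eqN hu hv).not).and (((((FPB.ltN hu (fpn_uW hw)).and (FPB.ltN hv (fpn_uW hw)))).and
    ((fpb_edgeW hw hu hv).or (fpb_edgeW hw hv hu))).not)

theorem fpn_kcW : FPN m (fun ρ => kcW (w ρ)) := by
  have hg := (fpg_gateW hw.weak (g := fun σ : Fin (m + 1) → List DL => (σ 0).length) FPN.v0).nand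
  exact (((fpn_uW hw).mul (fpn_uW hw)).add (FPN.sum (fpn_lW hw)
      (f := fun g ρ => if gNand (gateW (w ρ) g) then 3 else 0)
      (FPN.ite hg (FPN.const 3) (FPN.const 0)))).sub
    ((((fpn_kW hw).add (FPN.const 1)).mul ((FPN.const 5).mul (fpn_lW hw))).add
      (FPN.sum (fpn_lW hw) (f := fun g ρ => if gNand (gateW (w ρ) g) then 9 else 1)
        (FPN.ite hg (FPN.const 9) (FPN.const 1))))

theorem fpn_muArg (lam : ℕ) : FPN m (fun ρ => 16 * lam * (2 * uW (w ρ))) :=
  (FPN.const (16 * lam)).mul ((FPN.const 2).mul (fpn_uW hw))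

theorem fpn_muW (lam : ℕ) : FPN m (fun ρ => muW lam (w ρ)) := FPN.clog (fpn_muArg hw lam)

theorem fpn_pmuW (lam : ℕ) : FPN m (fun ρ => 2 ^ muW lam (w ρ)) := FPN.pow2clog (fpn_muArg hw lam)

theorem fpn_sArg (lam : ℕ) : FPN m (fun ρ => lam * (2 * uW (w ρ)) * 2 ^ muW lam (w ρ)) :=
  ((FPN.const lam).mul ((FPN.const 2).mul (fpn_uW hw))).mul (fpn_pmuW hw lam)

theorem fpn_sW (lam : ℕ) : FPN m (fun ρ => sW lam (w ρ)) := FPN.clog (fpn_sArg hw lam)

theorem fpn_psW (lam : ℕ) : FPN m (fun ρ => 2 ^ sW lam (w ρ)) := FPN.pow2clog (fpn_sArg hw lam)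

theorem fpn_LW (lam : ℕ) : FPN m (fun ρ => LW lam (w ρ)) :=
  ((fpn_psW hw lam).sub (((FPN.const 2).mul (fpn_uW hw)).mul (fpn_pmuW hw lam))).div (FPN.const 2)

theorem fpb_unitW {L M D u v : (Fin m → List DL) → ℕ} (hL : FPN m L) (hM : FPN m M)
    (hD : FPN m D) (hu : FPN m u) (hv : FPN m v) :
    FPB m (fun ρ => unitW (w ρ) (L ρ) (M ρ) (D ρ) (u ρ) (v ρ)) := by
  have h2L := (FPN.const 2).mul hL
  have huL := hu.div hL
  have hvL := hv.div hL
  have huL' := hu.mod hL
  have hvL' := hv.mod hL
  have hu' := (hu.sub h2L).div hM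
  have hv' := (hv.sub h2L).div hM
  exact FPB.ite (FPB.ltN hu h2L)
    ((FPB.ltN hv h2L).and ((FPB.eqN huL hvL).or
      ((((FPB.ltN huL hvL).and (FPB.ltN (((hvL'.add hL).sub huL').mod hL) hD))).or
        ((FPB.ltN hvL huL).and (FPB.ltN (((huL'.add hL).sub hvL').mod hL) hD)))))
    ((FPB.leN h2L hv).and ((FPB.eqN hu' hv').or (fpb_bisW hw hu' hv')))

end

theorem fpn_unary' {C : Type} [Fintype C] [Inhabited C] {fl : ℕ → ℕ} (hfl : PT unary unary fl)
    {e : (Fin m → List C) → ℕ} (he : FPN m e) : FPN m (fun ρ => fl (e ρ)) := by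
  have h1 : PT (id : List C → List C) unary (fun w => w.length) := by
    have h : PolyFn (fun w : List C => w.flatMap fun _ => [()]) := polyFn_flatMap _
    refine h.computable _ _ _ (fun w => ?_)
    unfold unary
    simp only [id]
    induction w with
    | nil => rfl
    | cons c w ih => rw [List.flatMap_cons, ← ih, List.length_cons, List.replicate_succ]; rfl
  have h2 : PT unary (id : List C → List C) (fun n => List.replicate n (default : C)) := by
    have h : PolyFn (fun w : List Unit => w.flatMap fun _ => [(default : C)]) :=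
      polyFn_flatMap _
    refine h.computable _ _ _ (fun n => ?_)
    unfold unary
    simp only [id]
    induction n with
    | zero => rfl
    | succ n ih => rw [List.replicate_succ, List.replicate_succ, List.flatMap_cons, ← ih]; rfl
  have h3 : H2XG.PT (fun w : List C => List.replicate (fl w.length) (default : C)) :=
    cps (cps h1 hfl) h2
  exact (FP.call h3 he).congr fun ρ => by rw [List.length_replicate]

theorem fpn_DW {w : (Fin m → List DL) → List DL} (hw : FP m w) {fl : ℕ → ℕ}
    (hfl : PT unary unary fl) (lam : ℕ) : FPN m (fun ρ => DW fl lam (w ρ)) :=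
  ((((fpn_unary' hfl ((fpn_psW hw lam).pow 2))).sub (((fpn_pmuW hw lam).pow 2).mul
    (fpn_kcW hw))).sub (((fpn_pmuW hw lam).pow 2).div (FPN.const 2))).div (fpn_LW hw lam)

/-- `2 ^ tN` -/
def ptW (lam : ℕ) (w : List DL) : ℕ :=
  if decide (muW lam w ≤ sW lam w + 1) then 4 * (2 ^ sW lam w) ^ 2 / (2 ^ muW lam w) ^ 2 else 1

theorem ptW_eq (lam : ℕ) (w : List DL) :
    ptW lam w = 2 ^ (2 * sW lam w + 2 - 2 * muW lam w) := by
  unfold ptW
  generalize sW lam w = s
  generalize muW lam w = k
  by_cases h : k ≤ s + 1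
  · rw [if_pos (by simpa using h), ← Nat.pow_div (by omega) (by norm_num)]
    congr 1
    · rw [pow_add, ← pow_mul, mul_comm s 2]; ring
    · rw [← pow_mul, mul_comm k 2]
  · rw [if_neg (by simpa using h), show 2 * s + 2 - 2 * k = 0 by omega, pow_zero]

/-- the output -/
def outW (fl : ℕ → ℕ) (lam c3 : ℕ) (qq : Polynomial ℕ) (w : List DL) : List DL :=
  List.replicate (c3 * ptW lam w) (.out .a) ++ List.replicate (ptW lam w) (.out .b) ++
  List.replicate (qq.eval (c3 * ptW lam w + ptW lam w)) (.out .q) ++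
  List.replicate (sW lam w) (.out .s) ++
  List.replicate (2 * sW lam w + 2 - 2 * muW lam w) (.out .t) ++
  (List.range (2 ^ sW lam w)).flatMap fun u => (List.range (2 ^ sW lam w)).flatMap fun v =>
    if (decide (u = v) || unitW w (LW lam w) (2 ^ muW lam w) (DW fl lam w) u v) then
      [DL.out (.bit true)] else [DL.out (.bit false)]

theorem fp_outW {w : (Fin m → List DL) → List DL} (hw : FP m w) {fl : ℕ → ℕ}
    (hfl : PT unary unary fl) (lam c3 : ℕ) (qq : Polynomial ℕ) :
    FP m (fun ρ => outW fl lam c3 qq (w ρ)) := by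
  have hs := fpn_sW hw lam
  have hps := fpn_psW hw lam
  have hmu := fpn_muW hw lam
  have hpmu := fpn_pmuW hw lam
  have hpt : FPN m (fun ρ => ptW lam (w ρ)) :=
    FPN.ite (FPB.leN hmu (hs.add (FPN.const 1)))
      (((FPN.const 4).mul (hps.pow 2)).div (hpmu.pow 2)) (FPN.const 1)
  have hc := (FPN.const c3).mul hpt
  have hww := hw.weak.weak
  have hM := FP.rangeFlatMap hps (F := fun u ρ => (List.range (2 ^ sW lam (w ρ))).flatMap fun v =>
    if (decide (u = v) || unitW (w ρ) (LW lam (w ρ)) (2 ^ muW lam (w ρ)) (DW fl lam (w ρ)) u v)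
      then [DL.out (.bit true)] else [DL.out (.bit false)])
    (FP.rangeFlatMap hps.weak (F := fun v σ =>
      if (decide ((σ 0).length = v) || unitW (w fun i => σ i.succ) (LW lam (w fun i => σ i.succ))
        (2 ^ muW lam (w fun i => σ i.succ)) (DW fl lam (w fun i => σ i.succ)) (σ 0).length v)
      then [DL.out (.bit true)] else [DL.out (.bit false)])
      (FP.ite ((FPB.eqN FPN.v1 FPN.v0).or (fpb_unitW hww (fpn_LW hww lam) (fpn_pmuW hww lam)
        (fpn_DW hww hfl lam) FPN.v1 FPN.v0)) (FP.const _) (FP.const _)))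
  exact (((((FP.rep hc (.out .a)).append (FP.rep hpt (.out .b))).append
    (FP.rep ((hc.add hpt).poly qq) (.out .q))).append (FP.rep hs (.out .s))).append
      (FP.rep ((((FPN.const 2).mul hs).add (FPN.const 2)).sub ((FPN.const 2).mul hmu))
        (.out .t))).append hM

theorem mat_eq (fl : ℕ → ℕ) (lam : ℕ) (F : CNF) : ((matN fl lam F).map ILetter.bit).map DL.out =
    (List.range (2 ^ sN lam F)).flatMap fun u => (List.range (2 ^ sN lam F)).flatMap fun v =>
    if (decide (u = v) || unitN F (LN lam F) (2 ^ muN lam F) (DN fl lam F) u v) then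
      [DL.out (.bit true)] else [DL.out (.bit false)] := by
  unfold matN
  rw [List.map_flatMap, List.map_flatMap]
  refine List.flatMap_congr fun u _ => ?_
  rw [List.map_map, List.map_map, List.map_eq_flatMap]
  refine List.flatMap_congr fun v _ => ?_
  simp only [Function.comp]
  cases (decide (u = v) || unitN F (LN lam F) (2 ^ muN lam F) (DN fl lam F) u v) <;> rfl

theorem outW_eq (fl : ℕ → ℕ) (lam c3 : ℕ) (qq : Polynomial ℕ) (F : CNF) :
    outW fl lam c3 qq ((encodeCNF F).map DL.inp) = (datN fl lam c3 qq F).1.enc.map DL.out := by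
  have e : (datN fl lam c3 qq F).1.enc =
      List.replicate (c3 * 2 ^ tN lam F) .a ++ List.replicate (2 ^ tN lam F) .b ++
      List.replicate (qq.eval (c3 * 2 ^ tN lam F + 2 ^ tN lam F)) .q ++
      List.replicate (sN lam F) .s ++ List.replicate (tN lam F) .t ++
      (matN fl lam F).map .bit := rfl
  rw [e, List.map_append, mat_eq]
  unfold outW
  simp only [ptW_eq, sW_eq, muW_eq, LW_eq, DW_eq, unitW_eq]
  simp only [List.map_append, List.map_replicate]
  rfl

theorem dat : DatStmt := by
  intro fl hfl _ lam c3 _ qq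
  have h := fp_outW (FP.var (0 : Fin 1)) hfl lam c3 qq
  exact FP.toPT (F := fun ρ => outW fl lam c3 qq (ρ 0)) h DL.inp (iB := DL.out)
    (fun x y h => DL.out.inj h) (fun F => outW_eq fl lam c3 qq F)

end Pool.Agent.UT.H87
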