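import Pool.Agent.Helper32_HCK.Defs
import Pool.Agent.Helper76_Bisect.Defs

/-!
# Uniform smoothed testers for graph bisection: definitions

`RhoBisection`, `cutEdges`, `pairs`, `toggleProb` are those of `Pool.Agent.Helper76_Bisect.Defs`;
`InNP`, `languageProblem` are those of `Pool.Agent.Helper32_HCK.Defs`. Polynomial-time
computability is Mathlib's `Turing.TM2ComputableInPolyTime`.
-/

set_option autoImplicit false

namespace Pool.Agent.UT

open Finset
open Pool.Agent.Helper32_HCK (InNP languageProblem)
open Pool.Agent.Helper76_Bisect (RhoBisection toggleProb)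

/-! ### Testers -/

/-- What a tester knows at some moment of its run: the parameters `a`, `b` (which stand for
`1 / ε` and `1 / σ`), its coins and the answers to its queries so far, oldest answer first. -/
structure View where
  /-- `1 / ε`, rounded up -/
  a : ℕ
  /-- `1 / σ`, rounded up -/
  b : ℕ
  /-- the results of the coin tosses -/
  coins : List Bool
  /-- the answers to the queries made so far -/
  answers : List Bool

/-- the letters used to write down a view -/
inductive ViewLetter
  | a
  | b
  | coin (r : Bool)
  | answer (r : Bool)

/-- The word which encodes a view: `a` letters `a`, `b` letters `b`, the coins, the answers. -/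
def View.enc (v : View) : List ViewLetter :=
  List.replicate v.a .a ++ List.replicate v.b .b ++ v.coins.map .coin ++ v.answers.map .answer

/-- A move of a tester: it asks whether its `i`-th and its `j`-th random vertex are adjacent, or it
stops with an output. -/
inductive Move
  | query (i j : ℕ)
  | output (r : Bool)

/-- the letters used to write down a move -/
inductive MoveLetter
  | i
  | j
  | out (r : Bool)

/-- The word which encodes a move. -/
def Move.enc : Move → List MoveLetter
  | .query i j => List.replicate i .i ++ List.replicate j .j
  | .output r => [.out r]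

/-- The output of the tester `next` with parameters `a`, `b` and coins `coins`, whose query `(i, j)`
is answered by `adj i j`; `answers` are the answers so far, and the tester may still make `t` moves
(if it does not stop, then its output is `false`). -/
def play (next : View → Move) (a b : ℕ) (coins : List Bool) (adj : ℕ → ℕ → Bool) :
    ℕ → List Bool → Bool
  | 0, _ => false
  | t + 1, answers =>
    match next ⟨a, b, coins, answers⟩ with
    | .output r => r
    | .query i j => play next a b coins adj t (answers ++ [adj i j])

open Classical in
/-- The answer to the query `(i, j)`, if `x` are the random vertices: is there an edge from `x i` to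
`x j` (the answer is `false` if `i` or `j` is not the number of a random vertex)? -/
noncomputable def sampleAdj {n q : ℕ} (G : SimpleGraph (Fin n)) (x : Fin q → Fin n) (i j : ℕ) :
    Bool := decide (∃ (hi : i < q) (hj : j < q), G.Adj (x ⟨i, hi⟩) (x ⟨j, hj⟩))

open Classical in
/-- The probability of a wrong output on the graph `G`, if the tester tosses `q` coins, draws `q`
vertices (independently, uniformly) and makes at most `q` moves. -/
noncomputable def errorOn (ρ : ℝ) (next : View → Move) (q a b : ℕ) {n : ℕ}
    (G : SimpleGraph (Fin n)) : ℝ :=
  ((univ.filter fun z : (Fin q → Bool) × (Fin q → Fin n) =>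
    ¬ (play next a b (List.ofFn z.1) (sampleAdj G z.2) q [] = true ↔ RhoBisection ρ G)).card : ℝ) /
    Fintype.card ((Fin q → Bool) × (Fin q → Fin n))

open Classical in
/-- The probability of a wrong output on a `ρ`-Bisection-preserving `σ`-perturbation
`symmDiff G T` of the graph `G`: the probability of a wrong output conditioned on
`ρ-Bisection (symmDiff G T) = ρ-Bisection G`. -/
noncomputable def smoothedError (ρ σ : ℝ) (next : View → Move) (q a b : ℕ) {n : ℕ}
    (G : SimpleGraph (Fin n)) : ℝ :=
  (∑ T : SimpleGraph (Fin n) with (RhoBisection ρ (symmDiff G T) ↔ RhoBisection ρ G),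
    toggleProb σ T * errorOn ρ next q a b (symmDiff G T)) /
  (∑ T : SimpleGraph (Fin n) with (RhoBisection ρ (symmDiff G T) ↔ RhoBisection ρ G),
    toggleProb σ T)

/-- The error probability of the tester is less than `1 / 3 + o(1)` on `ρ`-Bisection-preserving
`σ`-perturbations of all graphs with `n` vertices, as `n → ∞`. -/
def Tests (ρ σ : ℝ) (next : View → Move) (q a b : ℕ) : Prop :=
  ∀ δ : ℝ, 0 < δ → ∃ n₀ : ℕ, ∀ n : ℕ, n₀ ≤ n → Even n → ∀ G : SimpleGraph (Fin n),
    smoothedError ρ σ next q a b G < 1 / 3 + δ

/-- There is a uniform randomized algorithm as in Q1: its next move is computed by a Turing machine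
in polynomial time, the numbers of coins, of random vertices and of moves are bounded by a
polynomial in `1 / ε` and `1 / σ`, and it tests `ρ`-Bisection for all `0 < σ ≤ 1/2` and all
`0 < ε < σ (1/4 - 2ρ)`. -/
def HasUniformTester (ρ : ℝ) : Prop :=
  ∃ (next : View → Move) (q : Polynomial ℕ),
    Nonempty (Turing.TM2ComputableInPolyTime View.enc Move.enc next) ∧
    ∀ ε σ : ℝ, 0 < σ → σ ≤ 1 / 2 → 0 < ε → ε < σ * (1 / 4 - 2 * ρ) →
      Tests ρ σ next (q.eval (⌈1 / ε⌉₊ + ⌈1 / σ⌉₊)) ⌈1 / ε⌉₊ ⌈1 / σ⌉₊

/-- The same, only for `ε` and `σ` of the form `1 / a` and `1 / b` with natural numbers `a, b`. -/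
def HasWeakTester (ρ : ℝ) : Prop :=
  ∃ (next : View → Move) (q : Polynomial ℕ),
    Nonempty (Turing.TM2ComputableInPolyTime View.enc Move.enc next) ∧
    ∀ a b : ℕ, 0 < a → 2 ≤ b → (1 : ℝ) / a < 1 / b * (1 / 4 - 2 * ρ) →
      Tests ρ (1 / b) next (q.eval (a + b)) a b

/-! ### Complexity classes -/

open Classical in
/-- The language `L` is in BPP: a polynomial-time machine `V` with `p(|x|)` coins decides whether
`x ∈ L` with error probability at most `1/3`. -/
def InBPP (L : Set (List Bool)) : Prop :=
  ∃ (V : List Bool × List Bool → Bool) (p : Polynomial ℕ),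
    Nonempty (Turing.TM2ComputableInPolyTime
      (fun z : List Bool × List Bool => z.1.map Sum.inl ++ z.2.map Sum.inr)
      Computability.encodeBool V) ∧
    ∀ x : List Bool, ((univ.filter fun r : Fin (p.eval x.length) → Bool =>
      ¬ (V (x, List.ofFn r) = true ↔ x ∈ L)).card : ℝ) ≤ 1 / 3 * 2 ^ p.eval x.length

/-- `NP ⊆ BPP` (for languages over `{0, 1}`). -/
def NPSubsetBPP : Prop := ∀ L : Set (List Bool), InNP (languageProblem L) → InBPP L

/-- the word of length `n` over an alphabet with one letter -/
def unary (n : ℕ) : List Unit := List.replicate n ()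

/-- `n ↦ ⌊ρ n⌋` is computable in polynomial time, if numbers are written in unary. -/
def UnaryComputable (ρ : ℝ) : Prop :=
  Nonempty (Turing.TM2ComputableInPolyTime unary unary fun n => ⌊ρ * n⌋₊)

end Pool.Agent.UT
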