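import Pool.Agent.Helper87_UT.Stmts

/-!
# UT, module FIN1: a weak tester gives NP ⊆ BPP
-/

set_option autoImplicit false

namespace Pool.Agent.UT.H87

open Finset Turing Computability Pool.Agent.UT
open Pool.Agent.Helper32_HCK (InNP languageProblem)
open Pool.Agent.Helper76_Bisect
open Pool.Agent.Common_CookLevin (CNF encodeCNF satProblem sat_hard)

theorem exists_consts {ρ : ℝ} (h0 : 0 < ρ) (h1 : ρ < 1 / 8) : ∃ lam c3 : ℕ, 1 ≤ lam ∧
    7 ≤ lam * (1 - 8 * ρ) ∧ 1 ≤ ρ * lam ∧ 0 < c3 ∧ 1 < c3 * (1 / 4 - 2 * ρ) := by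
  have a1 : 0 < 1 - 8 * ρ := by linarith
  have a2 : 0 < 1 / 4 - 2 * ρ := by linarith
  obtain ⟨n1, hn1⟩ := exists_nat_ge (7 / (1 - 8 * ρ))
  obtain ⟨n2, hn2⟩ := exists_nat_ge (1 / ρ)
  obtain ⟨n3, hn3⟩ := exists_nat_gt (1 / (1 / 4 - 2 * ρ))
  rw [div_le_iff₀ a1] at hn1
  rw [div_le_iff₀ h0] at hn2
  rw [div_lt_iff₀ a2] at hn3
  refine ⟨n1 + n2 + 1, n3, by omega, ?_, ?_, ?_, hn3⟩
  · push_cast
    have : 0 ≤ ((n2 : ℝ) + 1) * (1 - 8 * ρ) := by positivity
    nlinarith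
  · push_cast
    have : 0 ≤ ((n1 : ℝ) + 1) * ρ := by positivity
    nlinarith
  · rcases Nat.eq_zero_or_pos n3 with h | h
    · rw [h] at hn3
      norm_num at hn3
    · exact h

theorem enc_len (I : Inst) : I.q ≤ I.enc.length ∧ I.s ≤ I.enc.length ∧ I.t ≤ I.enc.length := by
  unfold Inst.enc
  simp only [List.length_append, List.length_replicate, List.length_map]
  omega

theorem fin1 (hSim : SimStmt) (hDat : DatStmt) (hRed : RedStmt) (hCoi : CoiStmt)
    (hFwd : FwdStmt) (hSiz : SizStmt) (hCps : CpsStmt) (hMp1 : Mp1Stmt) : Fin1Stmt := by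
  classical
  intro ρ h0 h1 hρ hT L hL
  obtain ⟨next, qq, hnext, htest⟩ := hT
  obtain ⟨f, hf, hfL⟩ := sat_hard L hL
  obtain ⟨lam, c3, hlam, hl1, hl2, hc3, hc3'⟩ := exists_consts h0 h1
  have hfl : ∀ n : ℕ, ⌊ρ * n⌋₊ ≤ n := by
    intro n
    apply Nat.floor_le_of_le
    have : (0 : ℝ) ≤ n := by positivity
    nlinarith
  have hd : PT (id : List Bool → List Bool) (fun I : VInst => I.1.enc)
      (datN (fun n => ⌊ρ * n⌋₊) lam c3 qq ∘ f) :=
    hCps _ _ _ _ _ _ _ _ _ f _ hf (hDat _ hρ hfl lam c3 hlam qq)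
  obtain ⟨B, hB⟩ := hSiz _ _ _ _ _ _ _ hd
  have hV : PT (encPair (id : List Bool → List Bool) (id : List Bool → List Bool)) encodeBool
      ((fun z : VInst × List Bool => z.1.1.run next z.2) ∘
        fun z : List Bool × List Bool => ((datN (fun n => ⌊ρ * n⌋₊) lam c3 qq ∘ f) z.1, z.2)) :=
    hCps _ _ _ _ _ _ _ _ _ _ _ (hMp1 _ _ _ _ Bool _ _ _ hd) (hSim next hnext)
  refine ⟨_, B + B * B + B * B * B, hV, ?_⟩
  intro x
  set p : ℕ := (B + B * B + B * B * B).eval x.length with hp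
  set F : CNF := f x with hF
  set I : Inst := (datN (fun n => ⌊ρ * n⌋₊) lam c3 qq F).1 with hI
  have hlen : I.q + I.q * I.s + I.q * I.q * I.t ≤ p := by
    have h2 : I.enc.length ≤ B.eval x.length := hB x
    obtain ⟨e1, e2, e3⟩ := enc_len I
    have b1 := e1.trans h2
    have b2 := e2.trans h2
    have b3 := e3.trans h2
    rw [hp, Polynomial.eval_add, Polynomial.eval_add, Polynomial.eval_mul, Polynomial.eval_mul,
      Polynomial.eval_mul]
    exact Nat.add_le_add (Nat.add_le_add b1 (Nat.mul_le_mul b1 b2))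
      (Nat.mul_le_mul (Nat.mul_le_mul b1 b1) b3)
  obtain ⟨Γ, hA, hs, ht, hyes, hno⟩ := hRed ρ lam h0 h1 hl1 hl2 F
  have hcount := hCoi next I Γ p hA hlen
  -- the parameters
  have hb2 : 2 ≤ 2 ^ tN lam F := by
    calc 2 = 2 ^ 1 := rfl
      _ ≤ 2 ^ tN lam F := Nat.pow_le_pow_right (by norm_num) ht
  have hbR : (0 : ℝ) < 2 ^ tN lam F := by positivity
  have hbR2 : (2 : ℝ) ≤ 2 ^ tN lam F := by exact_mod_cast hb2
  have hσ : ((2 ^ tN lam F : ℕ) : ℝ) = 2 ^ tN lam F := by push_cast; rfl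
  have hadm : (1 : ℝ) / ((c3 * 2 ^ tN lam F : ℕ) : ℝ) <
      1 / ((2 ^ tN lam F : ℕ) : ℝ) * (1 / 4 - 2 * ρ) := by
    have hc3R : (0 : ℝ) < c3 := by exact_mod_cast hc3
    push_cast
    rw [div_lt_iff₀ (by positivity)]
    have : 1 / (2 : ℝ) ^ tN lam F * (1 / 4 - 2 * ρ) * (c3 * 2 ^ tN lam F) =
        c3 * (1 / 4 - 2 * ρ) := by
      field_simp
    rw [this]
    exact hc3'
  have htst := htest (c3 * 2 ^ tN lam F) (2 ^ tN lam F) (by positivity) hb2 hadm
  rw [hσ] at htst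
  have hfw := hFwd ρ (1 / 2 ^ tN lam F) next _ _ _ (2 ^ sN lam F) Γ (by positivity)
    (Nat.even_pow.2 ⟨even_two, by omega⟩) (by positivity)
    (by rw [div_le_div_iff₀ hbR (by norm_num)]; linarith) htst
  have hK : ((2 ^ sN lam F : ℕ) : ℝ) = 2 ^ sN lam F := by push_cast; rfl
  rw [hK] at hfw
  have h2p : (0 : ℝ) < 2 ^ p := by positivity
  have hcard : ((univ : Finset (Fin p → Bool)).card : ℝ) = 2 ^ p := by
    simp
  have hsplit : ((univ.filter fun r : Fin p → Bool => I.run next (List.ofFn r) = true).card : ℝ) +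
      ((univ.filter fun r : Fin p → Bool => ¬ I.run next (List.ofFn r) = true).card : ℝ) =
      2 ^ p := by
    rw [← hcard]
    exact_mod_cast Finset.card_filter_add_card_filter_not _
  change ((univ.filter fun r : Fin p → Bool =>
    ¬ (I.run next (List.ofFn r) = true ↔ x ∈ L)).card : ℝ) ≤ 1 / 3 * 2 ^ p
  by_cases hx : x ∈ L
  · have hsat := (hfL x).1 hx
    have hlim := hfw.1 (hyes hsat)
    have e : (univ.filter fun r : Fin p → Bool => ¬ (I.run next (List.ofFn r) = true ↔ x ∈ L)) =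
        univ.filter fun r : Fin p → Bool => ¬ I.run next (List.ofFn r) = true := by
      ext r
      simp [hx]
    rw [e]
    have h3 : 2 / 3 * 2 ^ p ≤
        ((univ.filter fun r : Fin p → Bool => I.run next (List.ofFn r) = true).card : ℝ) := by
      rw [hcount, mul_comm]
      exact mul_le_mul_of_nonneg_left hlim h2p.le
    linarith
  · have hsat : ¬ satProblem.Yes F := fun h => hx ((hfL x).2 h)
    have hlim := hfw.2 (hno hsat)
    have e : (univ.filter fun r : Fin p → Bool => ¬ (I.run next (List.ofFn r) = true ↔ x ∈ L)) =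
        univ.filter fun r : Fin p → Bool => I.run next (List.ofFn r) = true := by
      ext r
      simp [hx]
    rw [e, hcount, mul_comm]
    exact mul_le_mul_of_nonneg_right hlim h2p.le

end Pool.Agent.UT.H87
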