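import Pool.Agent.Helper87_UT.Stmts

/-!
# UT, module FIN2: NP ⊆ BPP gives a uniform tester
-/

set_option autoImplicit false

namespace Pool.Agent.UT.H87

open Finset Turing Computability Pool.Agent.UT
open Pool.Agent.Helper32_HCK (InNP languageProblem)
open Pool.Agent.Helper76_Bisect

theorem fin2 (hNpl : NplStmt) (hTnx : TnxStmt) (hPol : PolStmt) (hErr : ErrStmt)
    (hTot : TotStmt) (hCnd : CndStmt) : Fin2Stmt := by
  classical
  intro ρ h0 h1 hρ hNP
  have hfl : ∀ n : ℕ, ⌊ρ * n⌋₊ ≤ n := by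
    intro n
    apply Nat.floor_le_of_le
    have : (0 : ℝ) ≤ n := by positivity
    nlinarith
  obtain ⟨V, p, hV, hVerr⟩ := hNP _ (hNpl _ hρ hfl)
  obtain ⟨q, hq⟩ := hPol p
  refine ⟨tNext V p, q, hTnx V p hV, ?_⟩
  intro ε σ hσ0 hσ1 hε0 hε1
  set a : ℕ := ⌈1 / ε⌉₊ with ha
  set b : ℕ := ⌈1 / σ⌉₊ with hb
  have ha1 : 1 ≤ a := Nat.one_le_iff_ne_zero.2 (by
    rw [ha, Ne, Nat.ceil_eq_zero, not_le]
    positivity)
  have haR : (1 : ℝ) ≤ a := by exact_mod_cast ha1
  have hbound : ∃ n₀ : ℕ, ∀ n ≥ n₀, Even n → ∀ G : SimpleGraph (Fin n),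
      (RhoBisection ρ G → errorOn ρ (tNext V p) (q.eval (a + b)) a b G ≤
        1 / 20 + 1 / 50 + 7 / 27) ∧
      ((∀ S : Finset (Fin n), 2 * S.card = n →
        (ρ + 8 * (1 / (16 * a))) * (n : ℝ) ^ 2 ≤ (cutEdges G S : ℝ)) →
        errorOn ρ (tNext V p) (q.eval (a + b)) a b G ≤ 1 / 20 + 1 / 50 + 7 / 27) := by
    obtain ⟨n₀, hn₀⟩ := hErr ρ a (1 / 50) h0 (by linarith) ha1 (by norm_num)
    refine ⟨n₀ + 1, fun n hn hne G => ?_⟩
    have hnpos : 0 < n := by omega
    have hcardpos : (0 : ℝ) < Fintype.card ((Fin (q.eval (a + b)) → Bool) ×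
        (Fin (q.eval (a + b)) → Fin n)) := by
      have : Nonempty (Fin n) := ⟨⟨0, hnpos⟩⟩
      exact_mod_cast Fintype.card_pos
    have hpl : tQ a * tQ a + 1 ≤ q.eval (a + b) ∧ tQ a ≤ q.eval (a + b) ∧
        ∀ lab as : List Bool, lab.length = 2 * tm a * tκ a → as.length = tQ a * tQ a →
          2 * tm a * tκ a + 3 * p.eval (tEnc a lab as).length ≤ q.eval (a + b) := by
      have h2 := hq a b ha1 (List.replicate (2 * tm a * tκ a) false)
        (List.replicate (tQ a * tQ a) false) (by simp) (by simp)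
      exact ⟨h2.1, h2.2.1, fun lab as h3 h4 => (hq a b ha1 lab as h3 h4).2.2⟩
    have hE := hn₀ n (by omega) hne G
    constructor
    · intro hG
      have h2 := hE.1 hG
      have h3 := hTot V p q (fun n => ⌊ρ * n⌋₊) a b n G (1 / 20 + 1 / 50) true ha1 hnpos hVerr hpl
        (by
          refine le_trans (le_of_eq ?_) h2
          congr 2
          ext z
          simp)
      unfold errorOn
      rw [div_le_iff₀ hcardpos]
      refine le_trans (le_of_eq ?_) h3
      congr 2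
      ext z
      simp [hG]
    · intro hfar
      have hG : ¬ RhoBisection ρ G := by
        rintro ⟨S, hS1, hS2⟩
        have h4 := hfar S hS1
        have hnR : (0 : ℝ) < (n : ℝ) ^ 2 := by positivity
        have h5 : (0 : ℝ) < 8 * (1 / (16 * (a : ℝ))) := by positivity
        have h6 : 0 < 8 * (1 / (16 * (a : ℝ))) * (n : ℝ) ^ 2 := by positivity
        nlinarith
      have h2 := hE.2 hfar
      have h3 := hTot V p q (fun n => ⌊ρ * n⌋₊) a b n G (1 / 20 + 1 / 50) false ha1 hnpos hVerr hpl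
        (by
          refine le_trans (le_of_eq ?_) h2
          congr 2
          ext z
          simp)
      unfold errorOn
      rw [div_le_iff₀ hcardpos]
      refine le_trans (le_of_eq ?_) h3
      congr 2
      ext z
      simp [hG]
  have herr01 : ∀ (n : ℕ) (G : SimpleGraph (Fin n)),
      0 ≤ errorOn ρ (tNext V p) (q.eval (a + b)) a b G ∧
      errorOn ρ (tNext V p) (q.eval (a + b)) a b G ≤ 1 := by
    intro n G
    unfold errorOn
    refine ⟨by positivity, ?_⟩
    apply div_le_one_of_le₀ _ (by positivity)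
    exact_mod_cast Finset.card_le_univ _
  intro δ hδ
  obtain ⟨n₀, hn₀⟩ := hCnd ρ ε σ a (fun n G => errorOn ρ (tNext V p) (q.eval (a + b)) a b G)
    (1 / 20 + 1 / 50 + 7 / 27) h0 h1 hσ0 hσ1 hε0 hε1 (Nat.le_ceil _) herr01 (by norm_num)
    hbound δ hδ
  exact ⟨n₀, fun n hn hne G => hn₀ n hn hne G⟩

end Pool.Agent.UT.H87
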