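import Pool.Agent.Helper87_UT.Stmts

/-!
# UT, module FWD: what a tester does on the units
-/

set_option autoImplicit false

namespace Pool.Agent.UT.H87

open Finset Turing Computability Pool.Agent.UT
open Pool.Agent.Helper76_Bisect

theorem exists_small {c δ : ℝ} (hc : 0 < c) (hδ : 0 < δ) : ∃ n₁ : ℕ, ∀ n : ℕ, n₁ ≤ n →
    (2 : ℝ) ^ n * Real.exp (- (c * (n : ℝ) ^ 2)) ≤ δ := by
  refine ⟨⌈2 / c⌉₊ + ⌈1 / δ⌉₊ + 1, fun n hn => ?_⟩
  have h1 : 2 / c ≤ n := (Nat.le_ceil _).trans (by exact_mod_cast (by omega : ⌈2 / c⌉₊ ≤ n))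
  have h2 : 1 / δ ≤ n := (Nat.le_ceil _).trans (by exact_mod_cast (by omega : ⌈1 / δ⌉₊ ≤ n))
  have hn0 : (0 : ℝ) ≤ n := by positivity
  have h3 : (2 : ℝ) ^ n ≤ Real.exp n := by
    have h4 : (2 : ℝ) ≤ Real.exp 1 := by
      have := Real.add_one_le_exp (1 : ℝ)
      linarith
    calc (2 : ℝ) ^ n ≤ Real.exp 1 ^ n := pow_le_pow_left₀ (by norm_num) h4 n
      _ = Real.exp n := by rw [← Real.exp_nat_mul, mul_one]
  have h5 : (n : ℝ) + -(c * (n : ℝ) ^ 2) ≤ -n := by
    rw [div_le_iff₀ hc] at h1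
    nlinarith
  calc (2 : ℝ) ^ n * Real.exp (- (c * (n : ℝ) ^ 2))
      ≤ Real.exp n * Real.exp (- (c * (n : ℝ) ^ 2)) :=
        mul_le_mul_of_nonneg_right h3 (Real.exp_pos _).le
    _ = Real.exp (n + - (c * (n : ℝ) ^ 2)) := (Real.exp_add _ _).symm
    _ ≤ Real.exp (-n) := Real.exp_le_exp.2 h5
    _ = (Real.exp n)⁻¹ := Real.exp_neg _
    _ ≤ ((n : ℝ) + 1)⁻¹ := inv_anti₀ (by positivity) (Real.add_one_le_exp _)
    _ ≤ δ := by
      rw [inv_le_comm₀ (by positivity) hδ]
      rw [one_div] at h2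
      linarith

/-- acceptance probability on a graph -/
noncomputable def accOn (next : View → Move) (q a b : ℕ) {n : ℕ} (G : SimpleGraph (Fin n)) : ℝ :=
  (∑ x : Fin q → Fin n, accProb next q a b (G.comap x)) / (n : ℝ) ^ q

theorem card_filter_prod {A B : Type} [Fintype A] [Fintype B] (p : A → B → Prop)
    [∀ a b, Decidable (p a b)] [DecidablePred fun z : A × B => p z.1 z.2] :
    ((univ.filter fun z : A × B => p z.1 z.2).card : ℝ) =
      ∑ x : B, ((univ.filter fun c => p c x).card : ℝ) := by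
  rw [Finset.card_filter, Fintype.sum_prod_type_right]
  push_cast
  refine Finset.sum_congr rfl fun x _ => ?_
  rw [Finset.card_filter]
  push_cast
  exact Finset.sum_congr rfl fun c _ => by congr

open Classical in
theorem acc_card (next : View → Move) (q a b : ℕ) {n : ℕ} (G : SimpleGraph (Fin n)) :
    ((univ.filter fun z : (Fin q → Bool) × (Fin q → Fin n) =>
      play next a b (List.ofFn z.1) (sampleAdj G z.2) q [] = true).card : ℝ) =
      accOn next q a b G * ((2 : ℝ) ^ q * (n : ℝ) ^ q) := by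
  classical
  rw [card_filter_prod (fun (c : Fin q → Bool) (x : Fin q → Fin n) =>
    play next a b (List.ofFn c) (sampleAdj G x) q [] = true)]
  unfold accOn
  by_cases hn : (n : ℝ) ^ q = 0
  · have hn' : n ^ q = 0 := by exact_mod_cast hn
    have : IsEmpty (Fin q → Fin n) := by
      rw [← Fintype.card_eq_zero_iff]
      simpa using hn'
    simp
  · have h2 : (2 : ℝ) ^ q ≠ 0 := by positivity
    rw [mul_comm ((2 : ℝ) ^ q), ← mul_assoc, div_mul_cancel₀ _ hn, Finset.sum_mul]
    refine Finset.sum_congr rfl fun x _ => ?_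
    unfold accProb
    rw [div_mul_cancel₀ _ h2]
    congr 1

theorem acc_bounds (next : View → Move) (q a b : ℕ) (H : SimpleGraph (Fin q)) :
    0 ≤ accProb next q a b H ∧ accProb next q a b H ≤ 1 := by
  classical
  unfold accProb
  refine ⟨by positivity, ?_⟩
  rw [div_le_one (by positivity)]
  have := Finset.card_filter_le (univ : Finset (Fin q → Bool)) (fun c =>
    play next a b (List.ofFn c) (sampleAdj H id) q [] = true)
  have h2 : (univ : Finset (Fin q → Bool)).card = 2 ^ q := by simp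
  rw [h2] at this
  exact_mod_cast this

theorem accOn_bounds (next : View → Move) (q a b : ℕ) {n : ℕ} (G : SimpleGraph (Fin n)) :
    0 ≤ accOn next q a b G ∧ accOn next q a b G ≤ 1 := by
  unfold accOn
  refine ⟨div_nonneg (Finset.sum_nonneg fun x _ => (acc_bounds _ _ _ _ _).1) (by positivity), ?_⟩
  apply div_le_one_of_le₀ _ (by positivity)
  calc ∑ x : Fin q → Fin n, accProb next q a b (G.comap x) ≤ ∑ x : Fin q → Fin n, (1 : ℝ) :=
        Finset.sum_le_sum fun x _ => (acc_bounds _ _ _ _ _).2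
    _ = (n : ℝ) ^ q := by simp

theorem errorOn_no (ρ : ℝ) (next : View → Move) (q a b : ℕ) {n : ℕ} (hn : 0 < n)
    (G : SimpleGraph (Fin n)) (h : ¬ RhoBisection ρ G) :
    errorOn ρ next q a b G = accOn next q a b G := by
  classical
  have hn' : (0 : ℝ) < n := by exact_mod_cast hn
  have hpos : (0 : ℝ) < (2 : ℝ) ^ q * (n : ℝ) ^ q := by positivity
  have h1 := acc_card next q a b G
  unfold errorOn
  have h2 : (Fintype.card ((Fin q → Bool) × (Fin q → Fin n)) : ℝ) =
      (2 : ℝ) ^ q * (n : ℝ) ^ q := by simp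
  rw [h2, div_eq_iff hpos.ne', ← h1]
  congr 2
  ext z
  simp [h]

theorem errorOn_yes (ρ : ℝ) (next : View → Move) (q a b : ℕ) {n : ℕ} (hn : 0 < n)
    (G : SimpleGraph (Fin n)) (h : RhoBisection ρ G) :
    errorOn ρ next q a b G = 1 - accOn next q a b G := by
  classical
  have hn' : (0 : ℝ) < n := by exact_mod_cast hn
  have hpos : (0 : ℝ) < (2 : ℝ) ^ q * (n : ℝ) ^ q := by positivity
  have h1 := acc_card next q a b G
  unfold errorOn
  have h2 : (Fintype.card ((Fin q → Bool) × (Fin q → Fin n)) : ℝ) =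
      (2 : ℝ) ^ q * (n : ℝ) ^ q := by simp
  have h3 := Finset.card_filter_add_card_filter_not (s := (univ : Finset ((Fin q → Bool) ×
    (Fin q → Fin n)))) (fun z => play next a b (List.ofFn z.1) (sampleAdj G z.2) q [] = true)
  rw [Finset.card_univ] at h3
  have h4 : ((univ.filter fun z : (Fin q → Bool) × (Fin q → Fin n) =>
      play next a b (List.ofFn z.1) (sampleAdj G z.2) q [] = true).card : ℝ) +
      ((univ.filter fun z : (Fin q → Bool) × (Fin q → Fin n) =>
      ¬ play next a b (List.ofFn z.1) (sampleAdj G z.2) q [] = true).card : ℝ) =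
      (2 : ℝ) ^ q * (n : ℝ) ^ q := by
    rw [← h2]
    exact_mod_cast h3
  rw [h2, div_eq_iff hpos.ne', sub_mul, one_mul, ← h1, eq_sub_iff_add_eq, ← h4, add_comm]
  congr 2
  congr 1
  ext z
  simp [h]

open Classical in
theorem smpAvg_eq (σ : ℝ) (next : View → Move) (q a b : ℕ) {n : ℕ} (G : SimpleGraph (Fin n)) :
    smpAvg G σ (accProb next q a b) =
      ∑ T : SimpleGraph (Fin n), toggleProb σ T * accOn next q a b (symmDiff G T) := by
  classical
  unfold smpAvg accOn
  rw [Finset.sum_div]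
  refine Finset.sum_congr ?_ fun T _ => ?_
  · congr
  · rw [mul_div_assoc]

open Classical in
/-- the bounds for one graph -/
theorem one_graph (ρ σ δ κ : ℝ) (next : View → Move) (q a b : ℕ) {n : ℕ} (hn : 0 < n)
    (h0 : 0 ≤ σ) (h1 : σ ≤ 1) (hδ : 0 ≤ δ) (hκ : κ < 1) (G : SimpleGraph (Fin n))
    (hbad : ∑ T : SimpleGraph (Fin n) with
      ¬ (RhoBisection ρ (symmDiff G T) ↔ RhoBisection ρ G), toggleProb σ T ≤ κ)
    (he : smoothedError ρ σ next q a b G < 1 / 3 + δ) :
    (RhoBisection ρ G → 2 / 3 - δ - κ ≤ smpAvg G σ (accProb next q a b)) ∧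
    (¬ RhoBisection ρ G → smpAvg G σ (accProb next q a b) ≤ 1 / 3 + δ + κ) := by
  classical
  rw [smpAvg_eq]
  have hnn := fun T : SimpleGraph (Fin n) => toggleProb_nonneg h0 h1 T
  have hsplit := Finset.sum_filter_add_sum_filter_not (univ : Finset (SimpleGraph (Fin n)))
    (fun T => RhoBisection ρ (symmDiff G T) ↔ RhoBisection ρ G) (fun T => toggleProb σ T)
  have htot : ∑ T : SimpleGraph (Fin n), toggleProb σ T = 1 := by
    rw [← sum_toggleProb (n := n) σ]
  rw [htot] at hsplit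
  have hsplit2 := Finset.sum_filter_add_sum_filter_not (univ : Finset (SimpleGraph (Fin n)))
    (fun T => RhoBisection ρ (symmDiff G T) ↔ RhoBisection ρ G)
    (fun T => toggleProb σ T * accOn next q a b (symmDiff G T))
  have hbad' : ∑ T : SimpleGraph (Fin n) with
      ¬ (RhoBisection ρ (symmDiff G T) ↔ RhoBisection ρ G), toggleProb σ T ≤ κ := by
    refine le_trans (le_of_eq ?_) hbad
    refine Finset.sum_congr ?_ fun _ _ => rfl
    congr
  set w := ∑ T : SimpleGraph (Fin n) with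
      (RhoBisection ρ (symmDiff G T) ↔ RhoBisection ρ G), toggleProb σ T with hw
  have hw0 : 0 < w := by linarith
  have hw1 : w ≤ 1 := by
    have : 0 ≤ ∑ T : SimpleGraph (Fin n) with
      ¬ (RhoBisection ρ (symmDiff G T) ↔ RhoBisection ρ G), toggleProb σ T :=
      Finset.sum_nonneg fun T _ => hnn T
    linarith
  have he' : ∑ T : SimpleGraph (Fin n) with (RhoBisection ρ (symmDiff G T) ↔ RhoBisection ρ G),
      toggleProb σ T * errorOn ρ next q a b (symmDiff G T) ≤ (1 / 3 + δ) * w := by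
    unfold smoothedError at he
    have h3 : (∑ T : SimpleGraph (Fin n) with (RhoBisection ρ (symmDiff G T) ↔ RhoBisection ρ G),
      toggleProb σ T * errorOn ρ next q a b (symmDiff G T)) / w < 1 / 3 + δ := by
      refine lt_of_eq_of_lt ?_ he
      rw [hw]
    rw [div_lt_iff₀ hw0] at h3
    exact h3.le
  have hbad2 : ∑ T : SimpleGraph (Fin n) with
      ¬ (RhoBisection ρ (symmDiff G T) ↔ RhoBisection ρ G),
      toggleProb σ T * accOn next q a b (symmDiff G T) ≤ κ := by
    refine le_trans (Finset.sum_le_sum fun T _ => ?_) hbad'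
    exact mul_le_of_le_one_right (hnn T) (accOn_bounds next q a b _).2
  have hbad3 : 0 ≤ ∑ T : SimpleGraph (Fin n) with
      ¬ (RhoBisection ρ (symmDiff G T) ↔ RhoBisection ρ G),
      toggleProb σ T * accOn next q a b (symmDiff G T) :=
    Finset.sum_nonneg fun T _ => mul_nonneg (hnn T) (accOn_bounds next q a b _).1
  constructor
  · intro hG
    have h5 : ∑ T : SimpleGraph (Fin n) with (RhoBisection ρ (symmDiff G T) ↔ RhoBisection ρ G),
        toggleProb σ T * errorOn ρ next q a b (symmDiff G T) = w -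
        ∑ T : SimpleGraph (Fin n) with (RhoBisection ρ (symmDiff G T) ↔ RhoBisection ρ G),
        toggleProb σ T * accOn next q a b (symmDiff G T) := by
      rw [hw, ← Finset.sum_sub_distrib]
      refine Finset.sum_congr rfl fun T hT => ?_
      rw [errorOn_yes ρ next q a b hn _ ((Finset.mem_filter.1 hT).2.2 hG)]
      ring
    rw [h5] at he'
    have h6 : (1 / 3 + δ) * w ≤ w - 2 / 3 + κ * (2 / 3) + δ := by nlinarith
    rw [← hsplit2]
    have : 0 ≤ κ := le_trans (Finset.sum_nonneg fun T _ => hnn T) hbad'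
    linarith
  · intro hG
    have h5 : ∑ T : SimpleGraph (Fin n) with (RhoBisection ρ (symmDiff G T) ↔ RhoBisection ρ G),
        toggleProb σ T * errorOn ρ next q a b (symmDiff G T) =
        ∑ T : SimpleGraph (Fin n) with (RhoBisection ρ (symmDiff G T) ↔ RhoBisection ρ G),
        toggleProb σ T * accOn next q a b (symmDiff G T) := by
      refine Finset.sum_congr rfl fun T hT => ?_
      rw [errorOn_no ρ next q a b hn _ (fun h => hG ((Finset.mem_filter.1 hT).2.1 h))]
    rw [h5] at he'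
    have h6 : (1 / 3 + δ) * w ≤ 1 / 3 + δ := by nlinarith
    rw [← hsplit2]
    linarith

theorem fwd (hLim : LimStmt) (hBlw : BlwStmt) : FwdStmt := by
  classical
  intro ρ σ next q a b K Γ hK hKe hσ0 hσ1 hT
  have hfb := acc_bounds next q a b
  have hc : 0 < (σ / 2) ^ 2 := by positivity
  -- the common part
  have key : ∀ δ : ℝ, 0 < δ → δ < 1 → ∃ ν : ℕ, 0 < ν ∧ 0 < K * ν ∧
      smoothedError ρ σ next q a b (blow Γ ν) < 1 / 3 + δ ∧
      (2 : ℝ) ^ (K * ν) * Real.exp (- ((σ / 2) ^ 2 * ((K * ν : ℕ) : ℝ) ^ 2)) ≤ δ ∧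
      |smpAvg (blow Γ ν) σ (accProb next q a b) - limAvg Γ σ (accProb next q a b)| ≤ δ := by
    intro δ hδ _
    obtain ⟨n₀, h1⟩ := hT δ hδ
    obtain ⟨n₁, h2⟩ := exists_small hc hδ
    set ν := n₀ + n₁ + ⌈(q : ℝ) ^ 2 / δ⌉₊ + 1 with hν
    have hKν : ν ≤ K * ν := Nat.le_mul_of_pos_left _ hK
    have hpos : 0 < K * ν := by omega
    refine ⟨ν, by omega, hpos, h1 _ (by omega) (hKe.mul_right ν) _, h2 _ (by omega), ?_⟩
    refine (hLim K q ν Γ σ _ hK (by omega) hσ0.le (by linarith) hfb).trans ?_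
    rw [div_le_iff₀ (by exact_mod_cast hpos), ← div_le_iff₀' hδ]
    refine (Nat.le_ceil _).trans ?_
    exact_mod_cast (by omega : ⌈(q : ℝ) ^ 2 / δ⌉₊ ≤ K * ν)
  constructor
  · rintro ⟨A, hA1, hA2⟩
    refine le_of_forall_pos_lt_add fun η hη => ?_
    set δ := min (η / 4) (1 / 2) with hδd
    have hδ : 0 < δ := lt_min (by positivity) (by norm_num)
    have hδ1 : δ ≤ η / 4 := min_le_left _ _
    have hδ2 : δ ≤ 1 / 2 := min_le_right _ _
    obtain ⟨ν, hν, hn, h1, h2, h3⟩ := key δ hδ (by linarith)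
    obtain ⟨S, hS1, hS2⟩ := (hBlw K ν Γ (ρ - σ) hK hKe hν).1 ⟨A, hA1, hA2⟩
    have hnR : (0 : ℝ) < ((K * ν : ℕ) : ℝ) ^ 2 := by
      have : (0 : ℝ) < (K * ν : ℕ) := by exact_mod_cast hn
      positivity
    have hG : RhoBisection ρ (blow Γ ν) := ⟨S, hS1, by nlinarith⟩
    have h4 := prob_yes (ρ := ρ) hσ0.le le_rfl hσ1 (blow Γ ν) S hS1 hS2
    have h5 : Real.exp (- ((σ / 2) ^ 2 * ((K * ν : ℕ) : ℝ) ^ 2)) ≤
        (2 : ℝ) ^ (K * ν) * Real.exp (- ((σ / 2) ^ 2 * ((K * ν : ℕ) : ℝ) ^ 2)) := by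
      refine le_mul_of_one_le_left (Real.exp_pos _).le (one_le_pow₀ (by norm_num))
    have h6 := (one_graph ρ σ δ δ next q a b hn hσ0.le (by linarith) hδ.le (by linarith)
      (blow Γ ν) (by
        refine le_trans (le_of_eq ?_) (h4.trans (h5.trans h2))
        refine Finset.sum_congr ?_ fun _ _ => rfl
        ext T
        simp [hG]) h1).1 hG
    have h7 := (abs_le.1 h3).2
    linarith
  · intro hA
    refine le_of_forall_pos_le_add fun η hη => ?_
    set δ := min (η / 4) (1 / 2) with hδd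
    have hδ : 0 < δ := lt_min (by positivity) (by norm_num)
    have hδ1 : δ ≤ η / 4 := min_le_left _ _
    have hδ2 : δ ≤ 1 / 2 := min_le_right _ _
    obtain ⟨ν, hν, hn, h1, h2, h3⟩ := key δ hδ (by linarith)
    have hS := (hBlw K ν Γ (ρ + σ) hK hKe hν).2 hA
    have hnR : (0 : ℝ) < ((K * ν : ℕ) : ℝ) ^ 2 := by
      have : (0 : ℝ) < (K * ν : ℕ) := by exact_mod_cast hn
      positivity
    have hG : ¬ RhoBisection ρ (blow Γ ν) := by
      rintro ⟨S, hS1, hS2⟩
      have := hS S hS1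
      nlinarith
    have h4 := prob_no (ρ := ρ) hσ0.le le_rfl hσ1 (blow Γ ν) hS
    have h6 := (one_graph ρ σ δ δ next q a b hn hσ0.le (by linarith) hδ.le (by linarith)
      (blow Γ ν) (by
        refine le_trans (le_of_eq ?_) (h4.trans h2)
        refine Finset.sum_congr ?_ fun _ _ => rfl
        ext T
        simp [hG]) h1).2 hG
    have h7 := (abs_le.1 h3).1
    linarith

end Pool.Agent.UT.H87
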