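import Pool.Agent.Helper87_UT.Tnx

/-!
# UT, module NPL: the language of the tester is in NP
-/

set_option autoImplicit false

namespace Pool.Agent.UT.H87

open Turing Computability Pool.Agent.UT Pool.Agent.UT.Num Pool.Agent.H2XG
open Pool.Agent.Common_CookLevin (PolyFn polyFn_flatMap)
open Pool.Agent.Helper32_HCK (InNP languageProblem)

/-- functions whose values are words of bits -/
def FPW (m : ℕ) (A : (Fin m → List CL) → List Bool) : Prop := FP m (fun ρ => (A ρ).map CL.bit)

variable {m : ℕ}

theorem FPW.congr {A B : (Fin m → List CL) → List Bool} (h : FPW m A) (e : ∀ ρ, B ρ = A ρ) :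
    FPW m B := by
  have : B = A := funext e
  rw [this]
  exact h

theorem FPW.weak {A : (Fin m → List CL) → List Bool} (h : FPW m A) :
    FPW (m + 1) (fun σ => A (fun i => σ i.succ)) := FP.weak h

theorem FPW.len {A : (Fin m → List CL) → List Bool} (h : FPW m A) :
    FPN m (fun ρ => (A ρ).length) :=
  (FPN.len h).congr fun ρ => by rw [List.length_map]

theorem FPW.take {A : (Fin m → List CL) → List Bool} (h : FPW m A)
    {e : (Fin m → List CL) → ℕ} (he : FPN m e) : FPW m (fun ρ => (A ρ).take (e ρ)) :=
  FP.congr (FP.takeNum h he) fun ρ => by rw [List.map_take]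

theorem FPW.drop {A : (Fin m → List CL) → List Bool} (h : FPW m A)
    {e : (Fin m → List CL) → ℕ} (he : FPN m e) : FPW m (fun ρ => (A ρ).drop (e ρ)) :=
  FP.congr (FP.dropNum h he) fun ρ => by rw [List.map_drop]

/-- value of a letter -/
def lv : Option CL → Bool
  | some (.bit b) => b
  | _ => false

theorem FPW.getD {A : (Fin m → List CL) → List Bool} (h : FPW m A)
    {e : (Fin m → List CL) → ℕ} (he : FPN m e) : FPB m (fun ρ => (A ρ).getD (e ρ) false) :=
  FPB.congr (FPB.getNum h he lv) fun ρ => by
    rw [List.getElem?_map, List.getD_eq_getElem?_getD]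
    rcases (A ρ)[e ρ]? with _ | b <;> rfl

theorem FPW.get {A : (Fin m → List CL) → List Bool} (h : FPW m A)
    {e : (Fin m → List CL) → ℕ} (he : FPN m e) (b : Bool) :
    FPB m (fun ρ => decide ((A ρ)[e ρ]? = some b)) :=
  FPB.congr (FPB.getNum h he (fun o => decide (o = some (.bit b)))) fun ρ => by
    rw [List.getElem?_map]
    rcases (A ρ)[e ρ]? with _ | c
    · rfl
    · simp

theorem fpb_tAdj {a i j : (Fin m → List CL) → ℕ} {ans : (Fin m → List CL) → List Bool}
    (ha : FPN m a) (hans : FPW m ans) (hi : FPN m i) (hj : FPN m j) :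
    FPB m (fun ρ => tAdj (a ρ) (ans ρ) (i ρ) (j ρ)) :=
  FPW.getD hans ((hi.mul (fpn_tQ ha)).add hj)

theorem val_lt : ∀ l : List Bool, val l < 2 ^ l.length
  | [] => by simp [val]
  | b :: l => by
    have := val_lt l
    rw [val, List.length_cons, pow_succ]
    have : b.toNat ≤ 1 := by cases b <;> simp
    omega

theorem fpn_tLab {a u : (Fin m → List CL) → ℕ} {lab : (Fin m → List CL) → List Bool}
    (ha : FPN m a) (hlab : FPW m lab) (hu : FPN m u) :
    FPN m (fun ρ => tLab (a ρ) (lab ρ) (u ρ)) := by
  have h1 := FPW.take (FPW.drop hlab (hu.mul (fpn_tκ ha))) (fpn_tκ ha)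
  refine (FPN.bits h1 (fpn_tk ha) (fun c => lv (some c))).congr fun ρ => ?_
  rw [List.map_map]
  have h2 : ((fun c => lv (some c)) ∘ CL.bit) = (id : Bool → Bool) := by
    funext b
    rfl
  rw [h2, List.map_id]
  unfold tLab
  rw [min_eq_left]
  unfold tk
  refine (val_lt _).le.trans (Nat.pow_le_pow_right (by norm_num) ?_)
  exact List.length_take_le _ _

theorem fpb_tSide {a u : (Fin m → List CL) → ℕ} {lab ans π : (Fin m → List CL) → List Bool}
    (ha : FPN m a) (hlab : FPW m lab) (hans : FPW m ans) (hπ : FPW m π) (hu : FPN m u) :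
    FPB m (fun ρ => tSide (a ρ) (lab ρ) (ans ρ) (π ρ) (u ρ)) := by
  have hj := fpn_tLab ha hlab hu
  have ht := fpn_tt ha
  have hv : FPN m (fun ρ => tk (a ρ) * tt (a ρ) + u ρ) := ((fpn_tk ha).mul ht).add hu
  have hjs : FPN (m + 1) (fun σ : Fin (m + 1) → List CL =>
      tLab (a fun i => σ i.succ) (lab fun i => σ i.succ) (u fun i => σ i.succ) *
        tt (a fun i => σ i.succ) + (σ 0).length) :=
    (FPN.mul hj.weak ht.weak).add FPN.v0
  have h1 : FPN m (fun ρ => (List.range (tt (a ρ))).countP fun s =>
      tAdj (a ρ) (ans ρ) (tLab (a ρ) (lab ρ) (u ρ) * tt (a ρ) + s) (tk (a ρ) * tt (a ρ) + u ρ) &&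
        !(π ρ).getD (tLab (a ρ) (lab ρ) (u ρ) * tt (a ρ) + s) false) :=
    FPN.count ht ((fpb_tAdj ha.weak hans.weak hjs hv.weak).and (FPW.getD hπ.weak hjs).not)
  have h2 : FPN m (fun ρ => (List.range (tt (a ρ))).countP fun s =>
      tAdj (a ρ) (ans ρ) (tLab (a ρ) (lab ρ) (u ρ) * tt (a ρ) + s) (tk (a ρ) * tt (a ρ) + u ρ) &&
        (π ρ).getD (tLab (a ρ) (lab ρ) (u ρ) * tt (a ρ) + s) false) :=
    FPN.count ht ((fpb_tAdj ha.weak hans.weak hjs hv.weak).and (FPW.getD hπ.weak hjs))
  have h3 : FPN m (fun ρ => (List.range (tt (a ρ))).countP fun s =>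
        (π ρ).getD (tLab (a ρ) (lab ρ) (u ρ) * tt (a ρ) + s) false) :=
    FPN.count ht (FPW.getD hπ.weak hjs)
  exact FPB.ltN (h1.add (((FPN.const 8).mul ha).mul h3))
    (h2.add (((FPN.const 4).mul ha).mul ht))

theorem fpn_unary {fl : ℕ → ℕ} (hfl : PT unary unary fl) {e : (Fin m → List CL) → ℕ}
    (he : FPN m e) : FPN m (fun ρ => fl (e ρ)) := by
  have h1 : PT (id : List CL → List CL) unary (fun w => w.length) := by
    have h : PolyFn (fun w : List CL => w.flatMap fun _ => [()]) := polyFn_flatMap _
    refine h.computable _ _ _ (fun w => ?_)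
    unfold unary
    simp only [id]
    induction w with
    | nil => rfl
    | cons c w ih => rw [List.flatMap_cons, ← ih, List.length_cons, List.replicate_succ]; rfl
  have h2 : PT unary (id : List CL → List CL) (fun n => List.replicate n (default : CL)) := by
    have h : PolyFn (fun w : List Unit => w.flatMap fun _ => [(default : CL)]) :=
      polyFn_flatMap _
    refine h.computable _ _ _ (fun n => ?_)
    unfold unary
    simp only [id]
    induction n with
    | zero => rfl
    | succ n ih => rw [List.replicate_succ, List.replicate_succ, List.flatMap_cons, ← ih]; rfl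
  have h3 : H2XG.PT (fun w : List CL => List.replicate (fl w.length) (default : CL)) :=
    cps (cps h1 hfl) h2
  exact (FP.call h3 he).congr fun ρ => by rw [List.length_replicate]

theorem fpb_tAcc {fl : ℕ → ℕ} (hfl : PT unary unary fl) {a : (Fin m → List CL) → ℕ}
    {lab ans π : (Fin m → List CL) → List Bool}
    (ha : FPN m a) (hlab : FPW m lab) (hans : FPW m ans) (hπ : FPW m π) :
    FPB m (fun ρ => tAcc fl (a ρ) (lab ρ) (ans ρ) (π ρ)) := by
  have hm := fpn_tm ha
  have hb : FPN m (fun ρ => tk (a ρ) * tt (a ρ)) := (fpn_tk ha).mul (fpn_tt ha)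
  have h2r : FPN (C := CL) (m + 1) (fun σ => 2 * (σ 0).length) := (FPN.const 2).mul FPN.v0
  have s0 := fpb_tSide ha.weak hlab.weak hans.weak hπ.weak h2r
  have s1 := fpb_tSide ha.weak hlab.weak hans.weak hπ.weak (h2r.add (FPN.const 1))
  have hX : FPN m (fun ρ => (List.range (tm (a ρ))).countP fun r =>
      tAdj (a ρ) (ans ρ) (tk (a ρ) * tt (a ρ) + 2 * r) (tk (a ρ) * tt (a ρ) + 2 * r + 1) &&
      (tSide (a ρ) (lab ρ) (ans ρ) (π ρ) (2 * r) &&
        !tSide (a ρ) (lab ρ) (ans ρ) (π ρ) (2 * r + 1))) :=
    FPN.count hm ((fpb_tAdj ha.weak hans.weak (hb.weak.add h2r)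
      ((hb.weak.add h2r).add (FPN.const 1))).and (s0.and s1.not))
  have hY : FPN m (fun ρ => (List.range (tm (a ρ))).countP fun r =>
      tSide (a ρ) (lab ρ) (ans ρ) (π ρ) (2 * r)) := FPN.count hm s0
  have h2Y := (FPN.const 2).mul hY
  exact FPB.leN (((((FPN.const 64).mul ha).mul hm).mul hX).add
      (((FPN.const 64).mul (ha.pow 2)).mul (((h2Y.sub hm).add (hm.sub h2Y)).pow 2)))
    ((((FPN.const 16).mul ha).mul ((fpn_unary hfl ((FPN.const 4).mul (hm.pow 2))).add
      (FPN.const 1))).add ((FPN.const 12).mul (hm.pow 2)))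

/-! ### Decoding by positions -/

theorem tDec_eq : ∀ w : List Bool,
    (tDec w).1 = ((List.range (w.length / 3)).countP fun i => decide (w[3 * i]? = some false)) ∧
    (tDec w).2.1 = ((List.range (w.length / 3)).flatMap fun i =>
      if decide (w[3 * i]? = some true) && decide (w[3 * i + 1]? = some false) then
        [w.getD (3 * i + 2) false] else []) ∧
    (tDec w).2.2 = ((List.range (w.length / 3)).flatMap fun i =>
      if decide (w[3 * i]? = some true) && decide (w[3 * i + 1]? = some true) then
        [w.getD (3 * i + 2) false] else [])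
  | [] => by simp [tDec]
  | [x] => by cases x <;> simp [tDec]
  | [x, y] => by cases x <;> cases y <;> simp [tDec]
  | x :: y :: z :: l => by
    obtain ⟨h1, h2, h3⟩ := tDec_eq l
    have hl : (x :: y :: z :: l).length / 3 = l.length / 3 + 1 := by
      simp only [List.length_cons]
      omega
    have e0 : ∀ i, (x :: y :: z :: l)[3 * (i + 1)]? = l[3 * i]? := by
      intro i
      have : 3 * (i + 1) = 3 * i + 1 + 1 + 1 := by ring
      rw [this]
      simp
    have e1 : ∀ i, (x :: y :: z :: l)[3 * (i + 1) + 1]? = l[3 * i + 1]? := by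
      intro i
      have : 3 * (i + 1) + 1 = 3 * i + 1 + 1 + 1 + 1 := by ring
      rw [this]
      simp
    have e2 : ∀ i, (x :: y :: z :: l).getD (3 * (i + 1) + 2) false = l.getD (3 * i + 2) false := by
      intro i
      have : 3 * (i + 1) + 2 = 3 * i + 2 + 1 + 1 + 1 := by ring
      rw [this]
      simp
    rw [hl, List.range_succ_eq_map]
    simp only [List.countP_cons, List.countP_map, List.flatMap_cons, List.flatMap_map,
      Function.comp_def, Nat.succ_eq_add_one, e0, e1, e2, ← h1, ← h2, ← h3]
    cases x <;> cases y <;> simp [tDec]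

theorem fp_tDec {w : (Fin m → List CL) → List Bool} (hw : FPW m w) :
    FPN m (fun ρ => (tDec (w ρ)).1) ∧ FPW m (fun ρ => (tDec (w ρ)).2.1) ∧
      FPW m (fun ρ => (tDec (w ρ)).2.2) := by
  have hn := (FPW.len hw).div (FPN.const 3)
  have h3 : FPN (C := CL) (m + 1) (fun σ => 3 * (σ 0).length) := (FPN.const 3).mul FPN.v0
  refine ⟨?_, ?_, ?_⟩
  · exact (FPN.count hn (b := fun i ρ => decide ((w ρ)[3 * i]? = some false))
      (FPW.get hw.weak h3 false)).congr fun ρ => (tDec_eq (w ρ)).1
  · have h := FP.rangeFlatMap hn (F := fun i ρ => if decide ((w ρ)[3 * i]? = some true) &&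
        decide ((w ρ)[3 * i + 1]? = some false) then
        (if (w ρ).getD (3 * i + 2) false then [CL.bit true] else [CL.bit false]) else [])
      (FP.ite ((FPW.get hw.weak h3 true).and (FPW.get hw.weak (h3.add (FPN.const 1)) false))
        (FP.ite (FPW.getD hw.weak (h3.add (FPN.const 2))) (FP.const _) (FP.const _)) (FP.const []))
    refine FP.congr h fun ρ => ?_
    beta_reduce
    rw [(tDec_eq (w ρ)).2.1, List.map_flatMap]
    refine List.flatMap_congr fun i _ => ?_
    split_ifs <;> simp_all
  · have h := FP.rangeFlatMap hn (F := fun i ρ => if decide ((w ρ)[3 * i]? = some true) &&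
        decide ((w ρ)[3 * i + 1]? = some true) then
        (if (w ρ).getD (3 * i + 2) false then [CL.bit true] else [CL.bit false]) else [])
      (FP.ite ((FPW.get hw.weak h3 true).and (FPW.get hw.weak (h3.add (FPN.const 1)) true))
        (FP.ite (FPW.getD hw.weak (h3.add (FPN.const 2))) (FP.const _) (FP.const _)) (FP.const []))
    refine FP.congr h fun ρ => ?_
    beta_reduce
    rw [(tDec_eq (w ρ)).2.2, List.map_flatMap]
    refine List.flatMap_congr fun i _ => ?_
    split_ifs <;> simp_all

theorem pt_verify {fl : ℕ → ℕ} (hfl : PT unary unary fl) :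
    PT (fun z : List Bool × List Bool => z.1.map Sum.inl ++ z.2.map Sum.inr) encodeBool
      (fun z => tAcc fl (tDec z.1).1 (tDec z.1).2.1 (tDec z.1).2.2 z.2) := by
  have h1 : PT (fun z : List Bool × List Bool => z.1.map Sum.inl ++ z.2.map Sum.inr)
      (id : List CL → List CL) (fun z => (z.1.map Sum.inl ++ z.2.map Sum.inr).map CL.inp) := by
    have h : PolyFn (fun w : List (Bool ⊕ Bool) => w.flatMap fun c => [CL.inp c]) :=
      polyFn_flatMap _
    exact h.computable _ _ _ (fun z => by rw [id, List.map_eq_flatMap])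
  have hl : FPW 1 (fun ρ : Fin 1 → List CL => lefts (ρ 0)) :=
    FP.congr (FP.flatMap (FP.var 0) (F := fun c _ => match c with
      | .inp (.inl b) => [CL.bit b]
      | _ => []) (fun c => FP.const _)) fun ρ => by
      unfold lefts
      rw [List.map_flatMap]
      refine List.flatMap_congr fun c _ => ?_
      rcases c with _ | _ | _ | (_ | _) | _ <;> rfl
  have hr : FPW 1 (fun ρ : Fin 1 → List CL => rights (ρ 0)) :=
    FP.congr (FP.flatMap (FP.var 0) (F := fun c _ => match c with
      | .inp (.inr b) => [CL.bit b]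
      | _ => []) (fun c => FP.const _)) fun ρ => by
      unfold rights
      rw [List.map_flatMap]
      refine List.flatMap_congr fun c _ => ?_
      rcases c with _ | _ | _ | (_ | _) | _ <;> rfl
  obtain ⟨d1, d2, d3⟩ := fp_tDec hl
  have hb := fpb_tAcc hfl d1 d2 d3 hr
  have h2 := FP.pt (FP.ite hb (FP.const [CL.bit true]) (FP.const [CL.bit false]))
  have h3 : PolyFn (fun w : List CL => w.flatMap fun c => match c with
      | .bit x => [x]
      | _ => []) := polyFn_flatMap _
  have h4 := cps (cps h1 h2) h3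
  obtain ⟨c⟩ := h4
  refine ⟨⟨c.toTM2ComputableAux, c.time, fun z => ?_⟩⟩
  have h5 := c.outputsFun z
  have e1 : lefts ((z.1.map Sum.inl ++ z.2.map Sum.inr).map CL.inp) = z.1 := by
    unfold lefts
    rw [List.map_append, List.flatMap_append, List.map_map, List.map_map, List.flatMap_map,
      List.flatMap_map]
    simp
  have e2 : rights ((z.1.map Sum.inl ++ z.2.map Sum.inr).map CL.inp) = z.2 := by
    unfold rights
    rw [List.map_append, List.flatMap_append, List.map_map, List.map_map, List.flatMap_map,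
      List.flatMap_map]
    simp
  have h6 : ∀ b : Bool, (id (((if b then [CL.bit true] else [CL.bit false]) : List CL).flatMap
      fun c => match c with
      | .bit x => [x]
      | _ => []) : List Bool) = encodeBool b := by
    intro b
    cases b <;> rfl
  simp only [Matrix.cons_val_zero, e1, e2, h6] at h5
  exact h5

theorem tAcc_take (fl : ℕ → ℕ) (a : ℕ) (lab ans π : List Bool) :
    tAcc fl a lab ans (π.take (tk a * tt a)) = tAcc fl a lab ans π := by
  have h1 : ∀ u, tSide a lab ans (π.take (tk a * tt a)) u = tSide a lab ans π u := by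
    intro u
    have h2 : ∀ s ∈ List.range (tt a), (π.take (tk a * tt a)).getD (tLab a lab u * tt a + s) false =
        π.getD (tLab a lab u * tt a + s) false := by
      intro s hs
      have hs' := List.mem_range.1 hs
      have h3 : tLab a lab u < tk a := by
        unfold tLab tk
        exact (val_lt _).trans_le (Nat.pow_le_pow_right (by norm_num) (List.length_take_le _ _))
      have h4 : (tLab a lab u + 1) * tt a ≤ tk a * tt a := Nat.mul_le_mul_right _ h3
      rw [add_mul, one_mul] at h4
      rw [List.getD_eq_getElem?_getD, List.getD_eq_getElem?_getD, List.getElem?_take_of_lt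
        (by omega)]
    unfold tSide
    simp only
    have c1 : ((List.range (tt a)).countP fun s =>
        tAdj a ans (tLab a lab u * tt a + s) (tk a * tt a + u) &&
          !(π.take (tk a * tt a)).getD (tLab a lab u * tt a + s) false) =
        ((List.range (tt a)).countP fun s =>
        tAdj a ans (tLab a lab u * tt a + s) (tk a * tt a + u) &&
          !π.getD (tLab a lab u * tt a + s) false) :=
      List.countP_congr fun s hs => by rw [h2 s hs]
    have c2 : ((List.range (tt a)).countP fun s =>
          (π.take (tk a * tt a)).getD (tLab a lab u * tt a + s) false) =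
        ((List.range (tt a)).countP fun s => π.getD (tLab a lab u * tt a + s) false) :=
      List.countP_congr fun s hs => by rw [h2 s hs]
    have c3 : ((List.range (tt a)).countP fun s =>
        tAdj a ans (tLab a lab u * tt a + s) (tk a * tt a + u) &&
          (π.take (tk a * tt a)).getD (tLab a lab u * tt a + s) false) =
        ((List.range (tt a)).countP fun s =>
        tAdj a ans (tLab a lab u * tt a + s) (tk a * tt a + u) &&
          π.getD (tLab a lab u * tt a + s) false) :=
      List.countP_congr fun s hs => by rw [h2 s hs]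
    rw [c1, c2, c3]
  unfold tAcc
  simp only [h1]

theorem tDec_fst_le (w : List Bool) : (tDec w).1 ≤ w.length := by
  rw [(tDec_eq w).1]
  refine (List.countP_le_length).trans ?_
  rw [List.length_range]
  exact Nat.div_le_self _ _

theorem poly_kt : ∃ p : Polynomial ℕ, ∀ a n : ℕ, a ≤ n → tk a * tt a ≤ p.eval n := by
  refine ⟨(10 * (16 * Polynomial.X) ^ 2 + 1) * (500 * (16 * Polynomial.X) ^ 2) ^ 2, ?_⟩
  intro a n han
  have h1 : tk a ≤ 10 * (16 * a) ^ 2 + 1 := by
    unfold tk tκ
    rcases Nat.lt_or_ge (5 * (16 * a) ^ 2) 2 with h | h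
    · rw [Nat.clog_of_right_le_one (by omega) 2]
      omega
    · have h6 : 2 ^ (Nat.clog 2 (5 * (16 * a) ^ 2) - 1) < 5 * (16 * a) ^ 2 :=
        Nat.pow_pred_clog_lt_self (by norm_num) h
      have h7 : 1 ≤ Nat.clog 2 (5 * (16 * a) ^ 2) := Nat.clog_pos (by norm_num) h
      have h8 : 2 ^ Nat.clog 2 (5 * (16 * a) ^ 2) =
          2 * 2 ^ (Nat.clog 2 (5 * (16 * a) ^ 2) - 1) := by
        rw [← pow_succ']
        congr 1
        omega
      omega
  simp only [Polynomial.eval_mul, Polynomial.eval_add, Polynomial.eval_pow, Polynomial.eval_X,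
    Polynomial.eval_ofNat, Polynomial.eval_one]
  unfold tt
  have h2 : 16 * a ≤ 16 * n := Nat.mul_le_mul_left _ han
  have h3 : (16 * a) ^ 2 ≤ (16 * n) ^ 2 := Nat.pow_le_pow_left h2 2
  refine Nat.mul_le_mul (h1.trans ?_) (Nat.pow_le_pow_left (Nat.mul_le_mul_left _ h3) 2)
  omega

theorem npl : NplStmt := by
  intro fl hfl _
  obtain ⟨p, hp⟩ := poly_kt
  refine ⟨Bool, inferInstance, fun z => tAcc fl (tDec z.1).1 (tDec z.1).2.1 (tDec z.1).2.2 z.2, p,
    pt_verify hfl, ?_⟩
  intro w
  constructor
  · rintro ⟨π, hπ⟩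
    refine ⟨π.take (tk (tDec w).1 * tt (tDec w).1), ?_, ?_⟩
    · exact (List.length_take_le _ _).trans (hp _ _ (tDec_fst_le w))
    · simp only [tAcc_take]
      exact hπ
  · rintro ⟨π, _, hπ⟩
    exact ⟨π, hπ⟩

end Pool.Agent.UT.H87
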