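import Pool.Agent.Helper87_UT.Fin1
import Pool.Agent.Helper87_UT.Fin2
import Pool.Agent.Helper87_UT.Npl
import Pool.Agent.Helper87_UT.Dat
import Pool.Agent.Helper2_UT.Base
import Pool.Agent.Helper2_UT.Sim
import Pool.Agent.Helper2_UT.Rat
import Pool.Agent.Helper25_UT.Bad
import Pool.Agent.Helper25_UT.Cmt
import Pool.Agent.Helper50_UT.Cmp
import Pool.Agent.Helper50_UT.Inj
import Pool.Agent.Helper39_UT.Cnd
import Pool.Agent.Helper39_UT.Tot
import Pool.Agent.Helper94_UT.Coi
import Pool.Agent.Helper94_UT.Noi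
import Pool.Agent.Helper88_UT.Dec
import Pool.Agent.Helper88_UT.Tac
import Pool.Agent.Helper72_UT.Gat
import Pool.Agent.Helper81_UT.Maj
import Pool.Agent.Helper41_UT.Ply
import Pool.Agent.Helper41_UT.Pol
import Pool.Agent.Helper18_UT.Red
import Pool.Agent.Helper18_UT.Uni
import Pool.Agent.Helper65_UT.Rlb
import Pool.Agent.Helper9_UT.Rst
import Pool.Agent.Helper38_UT.Val
import Pool.Agent.Helper87_UT.Fwd
import Pool.Agent.Helper56_UT.Bis
import Pool.Agent.Helper56_UT.Err
import Pool.Agent.Helper69_UT.Lim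
import Pool.Agent.Helper69_UT.Blw
import Pool.Agent.Helper72_UT.Par

/-!
# UT: assembly
-/

set_option autoImplicit false

namespace Pool.Agent.UT.H87

open Finset Turing Computability Pool.Agent.UT

/-- a tester for all `ε`, `σ` is a tester for `1 / a`, `1 / b` -/
theorem weak_of_uniform {ρ : ℝ} (h : HasUniformTester ρ) : HasWeakTester ρ := by
  obtain ⟨next, q, h1, h2⟩ := h
  refine ⟨next, q, h1, fun a b ha hb hab => ?_⟩
  have haR : (0 : ℝ) < a := by exact_mod_cast ha
  have hbR : (2 : ℝ) ≤ b := by exact_mod_cast hb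
  have h3 := h2 (1 / a) (1 / b) (by positivity)
    (by
      rw [div_le_div_iff₀ (by linarith) (by norm_num)]
      linarith) (by positivity) hab
  have e1 : ⌈1 / (1 / (a : ℝ))⌉₊ = a := by rw [one_div_one_div, Nat.ceil_natCast]
  have e2 : ⌈1 / (1 / (b : ℝ))⌉₊ = b := by rw [one_div_one_div, Nat.ceil_natCast]
  rw [e1, e2] at h3
  exact h3

/-- For `0 < ρ < 1/8`, if `ρ` is rational or `n ↦ ⌊ρ n⌋` is computable in polynomial time (in
unary): a uniform tester exists if and only if `NP ⊆ BPP`. -/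
theorem main (ρ : ℝ) (h0 : 0 < ρ) (h1 : ρ < 1 / 8)
    (hρ : (∃ r : ℚ, (r : ℝ) = ρ) ∨ UnaryComputable ρ) :
    [HasUniformTester ρ, HasWeakTester ρ, NPSubsetBPP].TFAE := by
  have hu : UnaryComputable ρ := by
    rcases hρ with ⟨r, rfl⟩ | h
    · exact H2.rat r (by exact_mod_cast h0.le)
    · exact h
  have hInj : InjStmt := H50.inj
  have hRst : RstStmt := H9.rst
  have hVal : ValStmt := H38.val_all
  have hRed : RedStmt := H18.red H72.gat (H56.bis H72.gat) H72.par H18.uni
  have hCoi : CoiStmt := H94.coi hRst hVal H94.noi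
  have hTot : TotStmt := H39.tot H41.ply H81.maj hRst
  have hFwd : FwdStmt := fwd (H69.lim H50.cmp hInj) H69.blw
  have hErr : ErrStmt := H56E.err (H88.tac H88.dec) H25.cmt H25.bad (H65.rlb hInj hRst) hVal hRst hInj
  tfae_have 1 → 2 := weak_of_uniform
  tfae_have 2 → 3 := fin1 H2.sim dat hRed hCoi hFwd H2.siz H2.cps H2.mp1 ρ h0 h1 hu
  tfae_have 3 → 1 := fin2 npl tnx H41.pol hErr hTot H39.cnd ρ h0 h1 hu
  tfae_finish

end Pool.Agent.UT.H87
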