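import Pool.Agent.Helper32_Poly.Loops
import Pool.Agent.Helper32_Poly.Comp

/-!
# Structured programs with arbitrary straight-line statements

`XProg Γ σ` extends the structured stack programs `Prog Γ σ` by arbitrary `TM2` statements
(executed in one step, the targets of jumps being ignored), so that the machines of Mathlib's
`FinTM2` can be called as subprograms.
-/

set_option autoImplicit false

namespace Pool.Agent.UT

open Turing Function Computability StateTransition Pool.Agent.Helper32_Poly

/-- structured programs with arbitrary straight-line statements -/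
inductive XProg {K : Type} (Γ : K → Type) (σ : Type) : Type
  | prog (p : Prog Γ σ) : XProg Γ σ
  | basic (q : TM2.Stmt Γ Unit σ) : XProg Γ σ
  | seq (p q : XProg Γ σ) : XProg Γ σ
  | ite (c : σ → Bool) (p q : XProg Γ σ) : XProg Γ σ
  | loop (c : σ → Bool) (p : XProg Γ σ) : XProg Γ σ

section Defs

variable {K : Type} {Γ : K → Type} {σ : Type}

/-- labels used by the compiled code -/
def XProg.Lab : XProg Γ σ → Type
  | .prog p => p.Lab
  | .basic _ => Unit
  | .seq p q => p.Lab ⊕ q.Lab
  | .ite _ p q => Option (p.Lab ⊕ q.Lab)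
  | .loop _ p => Option p.Lab

/-- there are finitely many labels -/
@[instance_reducible]
def XProg.labFintype : (p : XProg Γ σ) → Fintype p.Lab
  | .prog p => p.labFintype
  | .basic _ => inferInstanceAs (Fintype Unit)
  | .seq p q => @instFintypeSum _ _ p.labFintype q.labFintype
  | .ite _ p q => @instFintypeOption _ (@instFintypeSum _ _ p.labFintype q.labFintype)
  | .loop _ p => @instFintypeOption _ p.labFintype

instance (p : XProg Γ σ) : Fintype p.Lab := p.labFintype

/-- start label -/
def XProg.start : (p : XProg Γ σ) → p.Lab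
  | .prog p => p.start
  | .basic _ => ()
  | .seq p _ => Sum.inl p.start
  | .ite _ _ _ => none
  | .loop _ _ => none

/-- replace all jumps and halts by a jump to `e` -/
def redirect {Λ' Λ : Type} (e : Λ) : TM2.Stmt Γ Λ' σ → TM2.Stmt Γ Λ σ
  | .push k f q => .push k f (redirect e q)
  | .peek k f q => .peek k f (redirect e q)
  | .pop k f q => .pop k f (redirect e q)
  | .load f q => .load f (redirect e q)
  | .branch c q₁ q₂ => .branch c (redirect e q₁) (redirect e q₂)
  | .goto _ => .goto fun _ => e
  | .halt => .goto fun _ => e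

/-- compiled code -/
def XProg.code {Λ : Type} : (p : XProg Γ σ) → (p.Lab → Λ) → Λ → p.Lab → TM2.Stmt Γ Λ σ
  | .prog p, emb, e, l => p.code emb e l
  | .basic q, _, e, _ => redirect e q
  | .seq p q, emb, e, l =>
    match l with
    | Sum.inl l => p.code (fun x => emb (Sum.inl x)) (emb (Sum.inr q.start)) l
    | Sum.inr l => q.code (fun x => emb (Sum.inr x)) e l
  | .ite c p q, emb, e, l =>
    match l with
    | none => .branch c (.goto fun _ => emb (some (Sum.inl p.start)))
        (.goto fun _ => emb (some (Sum.inr q.start)))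
    | some (Sum.inl l) => p.code (fun x => emb (some (Sum.inl x))) e l
    | some (Sum.inr l) => q.code (fun x => emb (some (Sum.inr x))) e l
  | .loop c p, emb, e, l =>
    match l with
    | none => .branch c (.goto fun _ => emb (some p.start)) (.goto fun _ => e)
    | some l => p.code (fun x => emb (some x)) (emb none) l

variable [DecidableEq K]

/-- memory after a statement -/
def bvar {Λ' : Type} (q : TM2.Stmt Γ Λ' σ) (v : σ) (S : ∀ k, List (Γ k)) : σ :=
  (TM2.stepAux q v S).var

/-- stacks after a statement -/
def bstk {Λ' : Type} (q : TM2.Stmt Γ Λ' σ) (v : σ) (S : ∀ k, List (Γ k)) : ∀ k, List (Γ k) :=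
  (TM2.stepAux q v S).stk

/-- Big-step semantics with time. -/
inductive XProg.Run : XProg Γ σ → σ → (∀ k, List (Γ k)) → σ → (∀ k, List (Γ k)) → ℕ → Prop
  | prog {p v S v' S' t} : Prog.Run p v S v' S' t → XProg.Run (.prog p) v S v' S' t
  | basic (q v S) : XProg.Run (.basic q) v S (bvar q v S) (bstk q v S) 1
  | seq {p q v S v' S' v'' S'' t t'} : XProg.Run p v S v' S' t → XProg.Run q v' S' v'' S'' t' →
      XProg.Run (.seq p q) v S v'' S'' (t + t')
  | ite_true {c p q v S v' S' t} : c v = true → XProg.Run p v S v' S' t →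
      XProg.Run (.ite c p q) v S v' S' (1 + t)
  | ite_false {c p q v S v' S' t} : c v = false → XProg.Run q v S v' S' t →
      XProg.Run (.ite c p q) v S v' S' (1 + t)
  | loop_false {c p v} (S) : c v = false → XProg.Run (.loop c p) v S v S 1
  | loop_true {c p v S v' S' v'' S'' t t'} : c v = true → XProg.Run p v S v' S' t →
      XProg.Run (.loop c p) v' S' v'' S'' t' → XProg.Run (.loop c p) v S v'' S'' (1 + t + t')

theorem stepAux_redirect {Λ' Λ : Type} (e : Λ) : ∀ (q : TM2.Stmt Γ Λ' σ) (v : σ)
    (S : ∀ k, List (Γ k)), TM2.stepAux (redirect e q) v S = ⟨some e, bvar q v S, bstk q v S⟩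
  | .push k f q, v, S => stepAux_redirect e q v (update S k (f v :: S k))
  | .peek k f q, v, S => stepAux_redirect e q (f v (S k).head?) S
  | .pop k f q, v, S => stepAux_redirect e q (f v (S k).head?) (update S k (S k).tail)
  | .load f q, v, S => stepAux_redirect e q (f v) S
  | .branch c q₁ q₂, v, S => by
    have h1 := stepAux_redirect e q₁ v S
    have h2 := stepAux_redirect e q₂ v S
    simp only [redirect, TM2.stepAux, bvar, bstk] at h1 h2 ⊢
    cases c v
    · exact h2
    · exact h1
  | .goto _, v, S => rfl
  | .halt, v, S => rfl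

theorem XProg.code_run {Λ : Type} (M : Λ → TM2.Stmt Γ Λ σ) {p : XProg Γ σ} {v : σ}
    {S : ∀ k, List (Γ k)} {v' : σ} {S' : ∀ k, List (Γ k)} {t : ℕ}
    (hr : XProg.Run p v S v' S' t) :
    ∀ (emb : p.Lab → Λ) (e : Λ), (∀ l, M (emb l) = p.code emb e l) →
      Steps M t ⟨some (emb p.start), v, S⟩ ⟨some e, v', S'⟩ := by
  induction hr with
  | prog h =>
    intro emb e h'
    exact Prog.code_run M h emb e h'
  | basic q v S =>
    intro emb e h
    apply Steps.one
    have h1 : M (emb (XProg.basic q).start) = _ := h _
    simp only [TM2.step, h1, XProg.code]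
    rw [stepAux_redirect]
  | @seq p q v S v' S' v'' S'' t t' h1 h2 ih1 ih2 =>
    intro emb e h
    exact Steps.trans (ih1 (fun x => emb (Sum.inl x)) (emb (Sum.inr q.start))
      (fun l => h (Sum.inl l))) (ih2 (fun x => emb (Sum.inr x)) e (fun l => h (Sum.inr l)))
  | @ite_true c p q v S v' S' t hc h1 ih1 =>
    intro emb e h
    refine Steps.trans (Steps.one ?_) (ih1 (fun x => emb (some (Sum.inl x))) e
      (fun l => h (some (Sum.inl l))))
    have h1 : M (emb (XProg.ite c p q).start) = TM2.Stmt.branch c
      (.goto fun _ => emb (some (Sum.inl p.start)))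
      (.goto fun _ => emb (some (Sum.inr q.start))) := h none
    simp only [TM2.step, h1, TM2.stepAux, hc, cond_true]
  | @ite_false c p q v S v' S' t hc h1 ih1 =>
    intro emb e h
    refine Steps.trans (Steps.one ?_) (ih1 (fun x => emb (some (Sum.inr x))) e
      (fun l => h (some (Sum.inr l))))
    have h1 : M (emb (XProg.ite c p q).start) = TM2.Stmt.branch c
      (.goto fun _ => emb (some (Sum.inl p.start)))
      (.goto fun _ => emb (some (Sum.inr q.start))) := h none
    simp only [TM2.step, h1, TM2.stepAux, hc, cond_false]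
  | @loop_false c p v S hc =>
    intro emb e h
    refine Steps.one ?_
    have h1 : M (emb (XProg.loop c p).start) = TM2.Stmt.branch c
      (.goto fun _ => emb (some p.start)) (.goto fun _ => e) := h none
    simp only [TM2.step, h1, TM2.stepAux, hc, cond_false]
  | @loop_true c p v S v' S' v'' S'' t t' hc h1 h2 ih1 ih2 =>
    intro emb e h
    refine Steps.trans (Steps.trans (Steps.one ?_)
      (ih1 (fun x => emb (some x)) (emb none) (fun l => h (some l)))) (ih2 emb e h)
    have h1 : M (emb (XProg.loop c p).start) = TM2.Stmt.branch c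
      (.goto fun _ => emb (some p.start)) (.goto fun _ => e) := h none
    simp only [TM2.step, h1, TM2.stepAux, hc, cond_true]

end Defs

section Machine

variable {K : Type} [DecidableEq K] [Fintype K] {Γ : K → Type} {σ : Type} [Fintype σ]

/-- The bundled `TM2` machine running a structured program. -/
def XProg.machine (v₀ : σ) (k₀ k₁ : K) [Fintype (Γ k₀)] (p : XProg Γ σ) : FinTM2 where
  K := K
  k₀ := k₀
  k₁ := k₁
  Γ := Γ
  Λ := Option p.Lab
  main := some p.start
  σ := σ
  initialState := v₀
  m := fun l => match l with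
    | none => .halt
    | some l => p.code some none l

/-- running the machine of a program -/
theorem XProg.machine_steps (v₀ : σ) (k₀ k₁ : K) [Fintype (Γ k₀)] (p : XProg Γ σ)
    {x : List (Γ k₀)} {y : List (Γ k₁)} {t : ℕ}
    (h : XProg.Run p v₀ (update (fun _ => []) k₀ x) v₀ (update (fun _ => []) k₁ y) t) :
    (flip bind (p.machine v₀ k₀ k₁).step)^[t + 1] (some (initList (p.machine v₀ k₀ k₁) x)) =
      some (haltList (p.machine v₀ k₀ k₁) y) := by
  have h1 := XProg.code_run (Λ := Option p.Lab) (p.machine v₀ k₀ k₁).m h (fun l => some l) none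
    (fun l => rfl)
  have h2 : Steps (p.machine v₀ k₀ k₁).m 1 ⟨some none, v₀, (update (fun _ => []) k₁ y)⟩
      ⟨none, v₀, (update (fun _ => []) k₁ y)⟩ := by
    apply Steps.one
    rfl
  have a := initList_eq (p.machine v₀ k₀ k₁) x
  have b := haltList_eq (p.machine v₀ k₀ k₁) y
  have h3 : (flip bind (p.machine v₀ k₀ k₁).step)^[t + 1] (some _) = some _ :=
    Steps.trans h1 h2
  exact (congrArg (fun c => (flip bind (p.machine v₀ k₀ k₁).step)^[t + 1] (some c)) a).trans
    (h3.trans (congrArg some b).symm)

/-- running the machine of a program -/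
noncomputable def XProg.machine_outputs (v₀ : σ) (k₀ k₁ : K) [Fintype (Γ k₀)] (p : XProg Γ σ)
    {x : List (Γ k₀)} {y : List (Γ k₁)} {T : ℕ}
    (h : ∃ t, t ≤ T ∧
      XProg.Run p v₀ (update (fun _ => []) k₀ x) v₀ (update (fun _ => []) k₁ y) t) :
    TM2OutputsInTime (p.machine v₀ k₀ k₁) x (some y) (T + 1) where
  steps := h.choose + 1
  evals_in_steps := XProg.machine_steps v₀ k₀ k₁ p h.choose_spec.2
  steps_le_m := Nat.succ_le_succ h.choose_spec.1

/-- A structured program computing `f` in polynomial time yields
Mathlib's `TM2ComputableInPolyTime`. -/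
noncomputable def XProg.computable {α β αΓ βΓ : Type} (ea : α → List αΓ) (eb : β → List βΓ)
    (f : α → β) (v₀ : σ) (k₀ k₁ : K) [Fintype (Γ k₀)] (p : XProg Γ σ)
    (e₀ : Γ k₀ ≃ αΓ) (e₁ : Γ k₁ ≃ βΓ) (q : Polynomial ℕ)
    (h : ∀ a, ∃ t, t ≤ q.eval (ea a).length ∧
      XProg.Run p v₀ (update (fun _ => []) k₀ ((ea a).map e₀.symm)) v₀
        (update (fun _ => []) k₁ ((eb (f a)).map e₁.symm)) t) :
    TM2ComputableInPolyTime ea eb f where
  tm := p.machine v₀ k₀ k₁
  inputAlphabet := e₀
  outputAlphabet := e₁
  time := q + 1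
  outputsFun a := by
    have h2 := XProg.machine_outputs v₀ k₀ k₁ p (h a)
    have h3 : (q + 1).eval (ea a).length = q.eval (ea a).length + 1 := by simp
    rw [h3]
    exact h2

end Machine

end Pool.Agent.UT
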